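import Pool.Agent.Lib.MP_1a91b9_nuX.GM.Ker

/-!
# Points with the same reduction
-/

set_option autoImplicit false

namespace Pool.Agent.Lib.MP_1a91b9_nuX.GM

open WeierstrassCurve

noncomputable section

section
variable {F : Type*} [Field F] [DecidableEq F] {Γ : Type*} [LinearOrderedCommGroupWithZero Γ]
  (v : Valuation F Γ) {W : WeierstrassCurve F}

/-- a good model: integral coefficients, unit discriminant -/
structure GoodW (W : WeierstrassCurve F) : Prop extends IntW v W where
  disc : v W.Δ = 1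

variable {v}

omit [DecidableEq F] in
/-- the reduction is nonsingular -/
theorem der_unit (hW : GoodW v W) {S : W.toAffine.Point} (hS : ¬ Kr v S) (he : v (pe S) < 1) :
    v (3 * px S ^ 2 + 2 * W.a₂ * px S + W.a₄ - W.a₁ * py S) = 1 := by
  obtain ⟨hS0, hx⟩ := not_kr hS
  have hy := py_le hW.toIntW hS
  obtain ⟨G, hG⟩ : ∃ G, G = 3 * px S ^ 2 + 2 * W.a₂ * px S + W.a₄ - W.a₁ * py S := ⟨_, rfl⟩
  have hGle : v G ≤ 1 := by
    rw [hG]
    exact v.map_sub_le (v.map_add_le (v.map_add_le (mul_le v_three_le (pow_le hx 2))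
      (mul_le (mul_le v_two_le hW.a2) hx)) hW.a4) (mul_le hW.a1 hy)
  rw [← hG]
  refine le_antisymm hGle (not_lt.1 fun hlt => ?_)
  have e := p_eq hS0
  obtain ⟨x, hxd⟩ : ∃ x, x = px S := ⟨_, rfl⟩
  obtain ⟨y, hyd⟩ : ∃ y, y = py S := ⟨_, rfl⟩
  obtain ⟨p, hp⟩ : ∃ p, p = pe S := ⟨_, rfl⟩
  have hpe : p = 2 * y + W.a₁ * x + W.a₃ := by rw [hp, hxd, hyd]; rfl
  rw [← hxd, ← hyd] at e hG
  rw [← hp] at he
  rw [← hxd] at hx
  let C : VariableChange F := ⟨1, x, 0, y⟩
  have hΔ : (C • W).Δ = W.Δ := by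
    rw [WeierstrassCurve.variableChange_Δ]
    simp [C]
  have h1 : (C • W).a₁ = W.a₁ := by
    rw [WeierstrassCurve.variableChange_a₁]
    simp [C]
  have h2 : (C • W).a₂ = W.a₂ + 3 * x := by
    rw [WeierstrassCurve.variableChange_a₂]
    simp [C]
  have h3 : (C • W).a₃ = p := by
    rw [WeierstrassCurve.variableChange_a₃]
    simp only [C, inv_one, Units.val_one, one_pow, one_mul]
    rw [hpe]
    ring
  have h4 : (C • W).a₄ = G := by
    rw [WeierstrassCurve.variableChange_a₄]
    simp only [C, inv_one, Units.val_one, one_pow, one_mul]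
    rw [hG]
    ring
  have h6 : (C • W).a₆ = 0 := by
    rw [WeierstrassCurve.variableChange_a₆]
    simp only [C, inv_one, Units.val_one, one_pow, one_mul]
    linear_combination -e
  have hd : v W.Δ < 1 := by
    rw [← hΔ]
    unfold WeierstrassCurve.Δ WeierstrassCurve.b₂ WeierstrassCurve.b₄ WeierstrassCurve.b₆
      WeierstrassCurve.b₈
    rw [h1, h2, h3, h4, h6]
    obtain ⟨a, ha⟩ : ∃ a, a = W.a₁ := ⟨_, rfl⟩
    obtain ⟨b, hb⟩ : ∃ b, b = W.a₂ + 3 * x := ⟨_, rfl⟩
    rw [← ha, ← hb]
    have hav : v a ≤ 1 := by rw [ha]; exact hW.a1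
    have hbv : v b ≤ 1 := by rw [hb]; exact v.map_add_le hW.a2 (mul_le v_three_le hx)
    have e1 : -(a ^ 2 + 4 * b) ^ 2 * (a ^ 2 * 0 + 4 * b * 0 - a * p * G + b * p ^ 2 - G ^ 2) -
        8 * (2 * G + a * p) ^ 3 - 27 * (p ^ 2 + 4 * 0) ^ 2 +
        9 * (a ^ 2 + 4 * b) * (2 * G + a * p) * (p ^ 2 + 4 * 0) =
        p * ((a ^ 2 + 2 * (2 * b)) ^ 2 * (a * G - b * p) - (2 * (2 * (2 * a))) * (2 * G + a * p) ^ 2
          - (3 * (3 * 3)) * p ^ 3 +
          (3 * 3) * (a ^ 2 + 2 * (2 * b)) * (2 * G + a * p) * p) +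
        G * ((a ^ 2 + 2 * (2 * b)) ^ 2 * G - (2 * (2 * (2 * 2))) * (2 * G + a * p) ^ 2) := by
      ring
    rw [e1]
    have t2 : v (2 : F) ≤ 1 := v_two_le
    have t3 : v (3 : F) ≤ 1 := v_three_le
    have c1 : v (a ^ 2 + 2 * (2 * b)) ≤ 1 :=
      v.map_add_le (pow_le hav 2) (mul_le t2 (mul_le t2 hbv))
    have c2 : v (2 * G + a * p) ≤ 1 := v.map_add_le (mul_le t2 hGle) (mul_le hav he.le)
    refine v.map_add_lt ?_ ?_
    · rw [map_mul]
      refine mul_lt_one_of_lt_of_le he ?_
      refine v.map_add_le (v.map_sub_le (v.map_sub_le ?_ ?_) ?_) ?_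
      · exact mul_le (pow_le c1 2) (v.map_sub_le (mul_le hav hGle) (mul_le hbv he.le))
      · exact mul_le (mul_le t2 (mul_le t2 (mul_le t2 hav))) (pow_le c2 2)
      · exact mul_le (mul_le t3 (mul_le t3 t3)) (pow_le he.le 3)
      · exact mul_le (mul_le (mul_le (mul_le t3 t3) c1) c2) he.le
    · rw [map_mul]
      refine mul_lt_one_of_lt_of_le hlt ?_
      refine v.map_sub_le ?_ ?_
      · exact mul_le (pow_le c1 2) hGle
      · exact mul_le (mul_le t2 (mul_le t2 (mul_le t2 t2))) (pow_le c2 2)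
  rw [hW.disc] at hd
  exact lt_irrefl _ hd

omit [DecidableEq F] in
theorem v_big {L a1 c : F} (ha : v a1 ≤ 1) (hc : v c ≤ 1) (hL : 1 < v L) :
    1 < v (L ^ 2 + a1 * L - c) := by
  have h1 : v L < v L ^ 2 := by
    rw [sq]
    have := mul_lt_mul_of_pos_left hL (zero_lt_one.trans hL)
    rwa [mul_one] at this
  have h2 : v (a1 * L - c) < v (L ^ 2) := by
    rw [map_pow]
    refine lt_of_le_of_lt (v.map_sub_le (?_ : _ ≤ v L) ?_) h1
    · rw [map_mul]
      exact mul_le_of_le_one_left' ha
    · exact hc.trans hL.le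
  have e : L ^ 2 + a1 * L - c = L ^ 2 + (a1 * L - c) := by ring
  rw [e, Valuation.map_add_eq_of_lt_left v h2, map_pow]
  exact hL.trans h1

/-- **Two points with opposite reductions**: their sum is in the kernel. -/
theorem kr_add_of (hW : GoodW v W) {A B : W.toAffine.Point} (hA : ¬ Kr v A) (hB : ¬ Kr v B)
    (hx : v (px A - px B) < 1) (hn : v (py A + py B + W.a₁ * px B + W.a₃) < 1) :
    Kr v (A + B) := by
  obtain ⟨hA0, hxA⟩ := not_kr hA
  obtain ⟨hB0, hxB⟩ := not_kr hB
  have hyA := py_le hW.toIntW hA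
  have hyB := py_le hW.toIntW hB
  have hc2 : v (W.a₂ + px A + px B) ≤ 1 := v.map_add_le (v.map_add_le hW.a2 hxA) hxB
  by_cases hxe : px A = px B
  · rcases (px_eq_iff hA0 hB0).1 hxe with h | h
    · -- `A = B`
      subst h
      have hpe : v (pe A) < 1 := by
        have e1 : pe A = py A + py A + W.a₁ * px A + W.a₃ := by
          unfold pe
          ring
        rwa [e1]
      by_cases hp0 : pe A = 0
      · rw [(dbl_zero hA0).2 hp0]
        exact kr_zero
      · obtain ⟨-, h1, -⟩ := p_dbl hA0 hp0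
        have hG := der_unit hW hA hpe
        obtain ⟨L, hL⟩ : ∃ L, L = (3 * px A ^ 2 + 2 * W.a₂ * px A + W.a₄ - W.a₁ * py A) / pe A :=
          ⟨_, rfl⟩
        rw [← hL] at h1
        have hLv : 1 < v L := by
          rw [hL, map_div₀, hG]
          exact (one_lt_div₀ (zero_lt_iff.2 ((Valuation.ne_zero_iff v).2 hp0))).2 hpe
        right
        have e2 : px (A + A) = L ^ 2 + W.a₁ * L - (W.a₂ + px A + px A) := by
          rw [h1]
          ring
        rw [e2]
        exact v_big hW.a1 hc2 hLv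
    · rw [h, neg_add_cancel]
      exact kr_zero
  · obtain ⟨-, h1, -⟩ := p_add hA0 hB0 hxe
    have hd : px A - px B ≠ 0 := sub_ne_zero.2 hxe
    obtain ⟨L, hL⟩ : ∃ L, L = (py A - py B) / (px A - px B) := ⟨_, rfl⟩
    rw [← hL] at h1
    have hLd : L * (px A - px B) = py A - py B := by
      rw [hL]
      exact div_mul_cancel₀ _ hd
    have hLv : 1 < v L := by
      by_cases hy : v (py A - py B) < 1
      · -- both are close to the points of order two
        have hpe : v (pe A) < 1 := by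
          have e1 : pe A = (py A + py B + W.a₁ * px B + W.a₃) + (py A - py B) +
              W.a₁ * (px A - px B) := by
            unfold pe
            ring
          rw [e1]
          refine v.map_add_lt (v.map_add_lt hn hy) ?_
          rw [map_mul]
          exact (mul_le_of_le_one_left' hW.a1).trans_lt hx
        have hG := der_unit hW hA hpe
        obtain ⟨G, hGd⟩ : ∃ G, G = px A ^ 2 + px A * px B + px B ^ 2 + W.a₂ * (px A + px B) +
            W.a₄ - W.a₁ * py A := ⟨_, rfl⟩
        have hG1 : v G = 1 := by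
          have e1 : G = (3 * px A ^ 2 + 2 * W.a₂ * px A + W.a₄ - W.a₁ * py A) -
              (px A - px B) * (px A + (px A + px B) + W.a₂) := by
            rw [hGd]
            ring
          have h2 : v ((px A - px B) * (px A + (px A + px B) + W.a₂)) < 1 := by
            rw [map_mul]
            exact mul_lt_one_of_lt_of_le hx
              (v.map_add_le (v.map_add_le hxA (v.map_add_le hxA hxB)) hW.a2)
          rw [e1, Valuation.map_sub_eq_of_lt_left v (by rw [hG]; exact h2), hG]
        have hLn : L * (py A + py B + W.a₁ * px B + W.a₃) = G := by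
          have eA := p_eq hA0
          have eB := p_eq hB0
          have e1 : (py A - py B) * (py A + py B + W.a₁ * px B + W.a₃) = (px A - px B) * G := by
            rw [hGd]
            linear_combination eA - eB
          refine mul_left_cancel₀ hd ?_
          rw [← e1, ← hLd]
          ring
        have h3 : v L * v (py A + py B + W.a₁ * px B + W.a₃) = 1 := by
          rw [← map_mul, hLn, hG1]
        by_contra h4
        rw [not_lt] at h4
        have h5 : v L * v (py A + py B + W.a₁ * px B + W.a₃) < 1 :=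
          (mul_le_of_le_one_left' h4).trans_lt hn
        rw [h3] at h5
        exact lt_irrefl _ h5
      · have hy1 : v (py A - py B) = 1 :=
          le_antisymm (v.map_sub_le hyA hyB) (not_lt.1 hy)
        rw [hL, map_div₀, hy1]
        exact (one_lt_div₀ (zero_lt_iff.2 ((Valuation.ne_zero_iff v).2 hd))).2 hx
    right
    have e2 : px (A + B) = L ^ 2 + W.a₁ * L - (W.a₂ + px A + px B) := by
      rw [h1]
      ring
    rw [e2]
    exact v_big hW.a1 hc2 hLv

/-- **Two points with the same reduction**: their difference is in the kernel. -/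
theorem kr_sub (hW : GoodW v W) {A S : W.toAffine.Point} (hA : ¬ Kr v A) (hS : ¬ Kr v S)
    (hx : v (px A - px S) < 1) (hy : v (py A - py S) < 1) : Kr v (A - S) := by
  rw [sub_eq_add_neg]
  obtain ⟨hS0, -⟩ := not_kr hS
  refine kr_add_of hW hA (fun h => hS (kr_neg.1 h)) (by rwa [px_neg]) ?_
  rw [py_neg hS0, px_neg]
  have e : py A + (-py S - W.a₁ * px S - W.a₃) + W.a₁ * px S + W.a₃ = py A - py S := by ring
  rwa [e]

/-- two points with the same reduction of the abscissa -/
theorem kr_of_x (hW : GoodW v W) {A S : W.toAffine.Point} (hA : ¬ Kr v A) (hS : ¬ Kr v S)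
    (hx : v (px A - px S) < 1) : Kr v (A - S) ∨ Kr v (A + S) := by
  obtain ⟨hA0, hxA⟩ := not_kr hA
  obtain ⟨hS0, hxS⟩ := not_kr hS
  have hyA := py_le hW.toIntW hA
  have hyS := py_le hW.toIntW hS
  have eA := p_eq hA0
  have eS := p_eq hS0
  have e1 : (py A - py S) * (py A + py S + W.a₁ * px S + W.a₃) = (px A - px S) *
      (px A ^ 2 + px A * px S + px S ^ 2 + W.a₂ * (px A + px S) + W.a₄ - W.a₁ * py A) := by
    linear_combination eA - eS
  have h1 : v ((py A - py S) * (py A + py S + W.a₁ * px S + W.a₃)) < 1 := by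
    rw [e1, map_mul]
    refine mul_lt_one_of_lt_of_le hx (v.map_sub_le (v.map_add_le (v.map_add_le
      (v.map_add_le (v.map_add_le (pow_le hxA 2) (mul_le hxA hxS)) (pow_le hxS 2))
      (mul_le hW.a2 (v.map_add_le hxA hxS))) hW.a4) (mul_le hW.a1 hyA))
  by_cases h2 : v (py A - py S) < 1
  · exact Or.inl (kr_sub hW hA hS hx h2)
  · right
    refine kr_add_of hW hA hS hx ?_
    rw [not_lt] at h2
    rw [map_mul] at h1
    by_contra h3
    rw [not_lt] at h3
    exact absurd h1 (not_lt.2 (one_le_mul_of_one_le_of_one_le h2 h3))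

/-- two points with the same reduction -/
theorem x_of_kr (hW : IntW v W) {A S : W.toAffine.Point} (hS : ¬ Kr v S) (h : Kr v (A - S)) :
    v (px A - px S) < 1 ∧ v (py A - py S) < 1 := by
  by_cases h0 : A - S = 0
  · rw [sub_eq_zero.1 h0, sub_self, sub_self, map_zero]
    exact ⟨zero_lt_one, zero_lt_one⟩
  · obtain ⟨-, h1, h2⟩ := kr_add hW hS h h0
    obtain ⟨-, -, ht, -, -⟩ := kr_val hW h h0
    rw [add_sub_cancel] at h1 h2
    refine ⟨?_, lt_of_le_of_lt h2 ht⟩
    have e : px A - px S = (px A - px S + pe S * pt (A - S)) - pe S * pt (A - S) := by ring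
    rw [e]
    refine v.map_sub_lt (lt_of_le_of_lt h1 ?_) ?_
    · rw [sq]
      exact mul_lt_one_of_lt_of_le ht ht.le
    · rw [map_mul]
      exact (mul_le_of_le_one_left' (pe_le hW hS)).trans_lt ht

/-- the values of the difference of two abscissae -/
theorem v_px_sub (hW : GoodW v W) {A S : W.toAffine.Point} (hA : ¬ Kr v A) (hS0 : S ≠ 0)
    (h1 : ¬ Kr v (A - S)) (h2 : ¬ Kr v (A + S)) :
    v (px A - px S) = max 1 (v (px S)) := by
  obtain ⟨hA0, hxA⟩ := not_kr hA
  by_cases hS : Kr v S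
  · rcases hS with h | h
    · exact absurd h hS0
    · rw [max_eq_right h.le, Valuation.map_sub_eq_of_lt_right v (lt_of_le_of_lt hxA h)]
  · obtain ⟨-, hxS⟩ := not_kr hS
    rw [max_eq_left hxS]
    refine le_antisymm (v.map_sub_le hxA hxS) (not_lt.1 fun h => ?_)
    rcases kr_of_x hW hA hS h with h3 | h3
    · exact h1 h3
    · exact h2 h3

end

end

end Pool.Agent.Lib.MP_1a91b9_nuX.GM
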