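import Pool.Agent.Lib.MP_1a91b9_nuX.GM.Sub

/-!
# Potential good reduction: the normal forms of Deuring and of Legendre

If `v (c₄³) ≤ v Δ` (the `j`-invariant is integral) and `v 3 = 1` and the curve has two independent
points of order three, or `v 2 = 1` and the curve has two points of order two one of which is
divisible by two, then the curve has a model with integral coefficients and unit discriminant.
-/

set_option autoImplicit false

namespace Pool.Agent.Lib.MP_1a91b9_nuX.GM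

open WeierstrassCurve

noncomputable section

section
variable {F : Type*} [Field F] {Γ : Type*} [LinearOrderedCommGroupWithZero Γ]
  {v : Valuation F Γ} {W : WeierstrassCurve F}

/-- the square of `2 y + a₁ x + a₃` -/
theorem pe_sq {P : W.toAffine.Point} (hP : P ≠ 0) :
    pe P ^ 2 = 4 * px P ^ 3 + W.b₂ * px P ^ 2 + 2 * W.b₄ * px P + W.b₆ := by
  have e := p_eq hP
  unfold pe WeierstrassCurve.b₂ WeierstrassCurve.b₄ WeierstrassCurve.b₆
  linear_combination 4 * e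

theorem v_pow_inj {a b : Γ} {n : ℕ} (hn : n ≠ 0) (h : a ^ n = b ^ n) : a = b := by
  rcases lt_trichotomy a b with h1 | h1 | h1
  · exact absurd h (pow_lt_pow_left₀ h1 zero_le' hn).ne
  · exact h1
  · exact absurd h (pow_lt_pow_left₀ h1 zero_le' hn).ne'

/-- the invariance of the integrality of `j` -/
theorem j_change (C : VariableChange F) (hj : v (W.c₄ ^ 3) ≤ v W.Δ) :
    v ((C • W).c₄ ^ 3) ≤ v (C • W).Δ := by
  have e : (C • W).c₄ ^ 3 = (C.u⁻¹ : Fˣ) ^ 12 * W.c₄ ^ 3 := by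
    rw [WeierstrassCurve.variableChange_c₄]
    ring
  rw [e, WeierstrassCurve.variableChange_Δ, map_mul, map_mul]
  exact mul_le_mul' le_rfl hj

/-- the values of the parameters of the normal form of Deuring -/
theorem deuring_val {a b g : F} (h3 : v 3 = 1) (hb : b ≠ 0) (hg : g ≠ 0)
    (e : g ^ 3 = a ^ 3 - 27 * b)
    (hj : v (a * (a ^ 3 - 24 * b)) ^ 3 ≤ v (b ^ 3 * g ^ 3)) : v b = v g ^ 3 ∧ v a ≤ v g := by
  have h27 : v (27 : F) = 1 := by
    have : (27 : F) = 3 * (3 * 3) := by norm_num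
    rw [this, map_mul, map_mul, h3, one_mul, one_mul]
  obtain ⟨A, hA⟩ : ∃ A, A = v a := ⟨_, rfl⟩
  obtain ⟨B, hB⟩ : ∃ B, B = v b := ⟨_, rfl⟩
  obtain ⟨G, hG⟩ : ∃ G, G = v g := ⟨_, rfl⟩
  have hB0 : 0 < B := by
    rw [hB]
    exact zero_lt_iff.2 ((Valuation.ne_zero_iff v).2 hb)
  have hG0 : 0 < G := by
    rw [hG]
    exact zero_lt_iff.2 ((Valuation.ne_zero_iff v).2 hg)
  have h27b : v (27 * b) = B := by rw [map_mul, h27, one_mul, hB]
  have h3b : v (3 * b) = B := by rw [map_mul, h3, one_mul, hB]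
  have hgg : v (g ^ 3) = G ^ 3 := by rw [map_pow, hG]
  have ea : a ^ 3 = g ^ 3 + 27 * b := by rw [e]; ring
  have eb : a ^ 3 - 24 * b = g ^ 3 + 3 * b := by rw [e]; ring
  have haa : A ^ 3 = v (g ^ 3 + 27 * b) := by rw [← ea, map_pow, hA]
  rw [eb, map_mul, mul_pow, map_mul, map_pow v b 3, hgg, ← hA, ← hB] at hj
  have key : B = G ^ 3 := by
    rcases lt_trichotomy B (G ^ 3) with h | h | h
    · exfalso
      have h1 : v (g ^ 3 + 27 * b) = G ^ 3 := by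
        rw [Valuation.map_add_eq_of_lt_left v (by rw [h27b, hgg]; exact h), hgg]
      have h2 : v (g ^ 3 + 3 * b) = G ^ 3 := by
        rw [Valuation.map_add_eq_of_lt_left v (by rw [h3b, hgg]; exact h), hgg]
      rw [h1] at haa
      rw [haa, h2] at hj
      have h3' : B ^ 3 * G ^ 3 < G ^ 3 * (G ^ 3) ^ 3 := by
        rw [mul_comm (G ^ 3)]
        exact mul_lt_mul_of_pos_right (pow_lt_pow_left₀ h zero_le' (by norm_num))
          (pow_pos hG0 3)
      exact absurd hj (not_le.2 h3')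
    · exact h
    · exfalso
      have h1 : v (g ^ 3 + 27 * b) = B := by
        rw [Valuation.map_add_eq_of_lt_right v (by rw [h27b, hgg]; exact h), h27b]
      have h2 : v (g ^ 3 + 3 * b) = B := by
        rw [Valuation.map_add_eq_of_lt_right v (by rw [h3b, hgg]; exact h), h3b]
      rw [h1] at haa
      rw [haa, h2] at hj
      have h3' : B ^ 3 * G ^ 3 < B * B ^ 3 := by
        rw [mul_comm B]
        exact mul_lt_mul_of_pos_left h (pow_pos hB0 3)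
      exact absurd hj (not_le.2 h3')
  refine ⟨by rw [← hB, ← hG]; exact key, ?_⟩
  rw [← hA, ← hG]
  have h1 : A ^ 3 ≤ G ^ 3 := by
    rw [haa]
    exact v.map_add_le hgg.le (by rw [h27b, key])
  by_contra h2
  rw [not_le] at h2
  exact absurd h1 (not_le.2 (pow_lt_pow_left₀ h2 zero_le' (by norm_num)))

/-- **The normal form of Deuring.** -/
theorem deuring (hW : W.Δ ≠ 0) (hj : v (W.c₄ ^ 3) ≤ v W.Δ) (h3 : v 3 = 1)
    {P : W.toAffine.Point} (hP : P ≠ 0) (hPe : pe P ≠ 0)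
    (hψ : 3 * px P ^ 4 + W.b₂ * px P ^ 3 + 3 * W.b₄ * px P ^ 2 + 3 * W.b₆ * px P + W.b₈ = 0)
    {x : F} (hx : x ≠ px P)
    (hx3 : 3 * x ^ 4 + W.b₂ * x ^ 3 + 3 * W.b₄ * x ^ 2 + 3 * W.b₆ * x + W.b₈ = 0) :
    ∃ C : VariableChange F, GoodW v (C • W) := by
  have e := p_eq hP
  obtain ⟨r, hr⟩ : ∃ r, r = px P := ⟨_, rfl⟩
  obtain ⟨t, ht⟩ : ∃ t, t = py P := ⟨_, rfl⟩
  obtain ⟨p, hp⟩ : ∃ p, p = 2 * t + W.a₁ * r + W.a₃ := ⟨_, rfl⟩
  have hp0 : p ≠ 0 := by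
    have : p = pe P := by rw [hp, hr, ht]; rfl
    rwa [this]
  rw [← hr] at hψ hx e
  rw [← ht] at e
  obtain ⟨s, hs⟩ : ∃ s, s = (3 * r ^ 2 + 2 * W.a₂ * r + W.a₄ - W.a₁ * t) / p := ⟨_, rfl⟩
  have hsp : s * p = 3 * r ^ 2 + 2 * W.a₂ * r + W.a₄ - W.a₁ * t := by
    rw [hs]
    exact div_mul_cancel₀ _ hp0
  have hs2 : s ^ 2 + W.a₁ * s - W.a₂ - 3 * r = 0 := by
    have h1 : (s ^ 2 + W.a₁ * s - W.a₂ - 3 * r) * p ^ 2 = 0 := by
      have h2 : (s ^ 2 + W.a₁ * s - W.a₂ - 3 * r) * p ^ 2 = (s * p) ^ 2 + W.a₁ * (s * p) * p -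
          (W.a₂ + 3 * r) * p ^ 2 := by ring
      rw [h2, hsp, hp]
      unfold WeierstrassCurve.b₂ WeierstrassCurve.b₄ WeierstrassCurve.b₆ WeierstrassCurve.b₈ at hψ
      linear_combination (-W.a₁ ^ 2 - 4 * W.a₂ - 12 * r) * e - hψ
    rcases mul_eq_zero.1 h1 with h2 | h2
    · exact h2
    · exact absurd h2 (pow_ne_zero 2 hp0)
  obtain ⟨C1, hC1⟩ : ∃ C1 : VariableChange F, C1 = ⟨1, r, s, t⟩ := ⟨_, rfl⟩
  obtain ⟨V, hV⟩ : ∃ V : WeierstrassCurve F, V = C1 • W := ⟨_, rfl⟩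
  have v2 : V.a₂ = 0 := by
    rw [hV, WeierstrassCurve.variableChange_a₂, hC1]
    simp only [inv_one, Units.val_one, one_pow, one_mul]
    linear_combination -hs2
  have v3 : V.a₃ = p := by
    rw [hV, WeierstrassCurve.variableChange_a₃, hC1, hp]
    simp only [inv_one, Units.val_one, one_pow, one_mul]
    ring
  have v4 : V.a₄ = 0 := by
    rw [hV, WeierstrassCurve.variableChange_a₄, hC1]
    simp only [inv_one, Units.val_one, one_pow, one_mul]
    rw [hp] at hsp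
    linear_combination -hsp
  have v6 : V.a₆ = 0 := by
    rw [hV, WeierstrassCurve.variableChange_a₆, hC1]
    simp only [inv_one, Units.val_one, one_pow, one_mul]
    linear_combination -e
  obtain ⟨a, ha⟩ : ∃ a, a = V.a₁ := ⟨_, rfl⟩
  have vb2 : V.b₂ = a ^ 2 := by
    unfold WeierstrassCurve.b₂
    rw [v2, ← ha]
    ring
  have vb4 : V.b₄ = a * p := by
    unfold WeierstrassCurve.b₄
    rw [v3, v4, ← ha]
    ring
  have vb6 : V.b₆ = p ^ 2 := by
    unfold WeierstrassCurve.b₆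
    rw [v3, v6]
    ring
  have vb8 : V.b₈ = 0 := by
    unfold WeierstrassCurve.b₈
    rw [v2, v3, v4, v6, ← ha]
    ring
  have vc4 : V.c₄ = a * (a ^ 3 - 24 * p) := by
    unfold WeierstrassCurve.c₄
    rw [vb2, vb4]
    ring
  have vD : V.Δ = p ^ 3 * (a ^ 3 - 27 * p) := by
    unfold WeierstrassCurve.Δ
    rw [vb2, vb4, vb6, vb8]
    ring
  have hVΔ : V.Δ ≠ 0 := by
    rw [hV, WeierstrassCurve.variableChange_Δ, hC1]
    simpa using hW
  have hX : x - r ≠ 0 := sub_ne_zero.2 hx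
  obtain ⟨X, hXd⟩ : ∃ X, X = x - r := ⟨_, rfl⟩
  rw [← hXd] at hX
  have hX3 : 3 * X ^ 3 + a ^ 2 * X ^ 2 + 3 * (a * p) * X + 3 * p ^ 2 = 0 := by
    refine mul_left_cancel₀ hX ?_
    rw [mul_zero, ← hx3]
    have c2 : a ^ 2 = W.b₂ + 12 * r := by
      rw [← vb2, hV, WeierstrassCurve.variableChange_b₂, hC1]
      simp only [inv_one, Units.val_one, one_pow, one_mul]
    have c4 : a * p = W.b₄ + r * W.b₂ + 6 * r ^ 2 := by
      rw [← vb4, hV, WeierstrassCurve.variableChange_b₄, hC1]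
      simp only [inv_one, Units.val_one, one_pow, one_mul]
    have c6 : p ^ 2 = W.b₆ + 2 * r * W.b₄ + r ^ 2 * W.b₂ + 4 * r ^ 3 := by
      rw [← vb6, hV, WeierstrassCurve.variableChange_b₆, hC1]
      simp only [inv_one, Units.val_one, one_pow, one_mul]
    rw [c2, c4, c6, hXd]
    linear_combination -hψ
  obtain ⟨g, hg⟩ : ∃ g, g = (a * X + 3 * p) / X := ⟨_, rfl⟩
  have hgX : g * X = a * X + 3 * p := by
    rw [hg]
    exact div_mul_cancel₀ _ hX
  have hg3 : g ^ 3 = a ^ 3 - 27 * p := by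
    refine mul_right_cancel₀ (pow_ne_zero 3 hX) ?_
    rw [← mul_pow, hgX]
    linear_combination (9 * p) * hX3
  have hg0 : g ≠ 0 := by
    rintro h
    rw [h, zero_pow (by norm_num)] at hg3
    rw [vD, ← hg3, mul_zero] at hVΔ
    exact hVΔ rfl
  have hjV : v (V.c₄ ^ 3) ≤ v V.Δ := by
    rw [hV]
    exact j_change C1 hj
  rw [vc4, vD, ← hg3, map_pow] at hjV
  obtain ⟨hb, hab⟩ := deuring_val h3 hp0 hg0 hg3 hjV
  have hvg : v g ≠ 0 := (Valuation.ne_zero_iff v).2 hg0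
  obtain ⟨C2, hC2⟩ : ∃ C2 : VariableChange F, C2 = ⟨Units.mk0 g hg0, 0, 0, 0⟩ := ⟨_, rfl⟩
  have hu : ((C2.u⁻¹ : Fˣ) : F) = g⁻¹ := by
    rw [hC2]
    rfl
  have hC2r : C2.r = 0 := by rw [hC2]
  have hC2s : C2.s = 0 := by rw [hC2]
  have hC2t : C2.t = 0 := by rw [hC2]
  refine ⟨C2 * C1, ⟨⟨?_, ?_, ?_, ?_, ?_⟩, ?_⟩⟩
  · rw [mul_smul, ← hV, WeierstrassCurve.variableChange_a₁, hu, hC2s, mul_zero, add_zero, ← ha,
      map_mul, map_inv₀]
    calc (v g)⁻¹ * v a ≤ (v g)⁻¹ * v g := mul_le_mul' le_rfl hab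
      _ = 1 := inv_mul_cancel₀ hvg
  · rw [mul_smul, ← hV, WeierstrassCurve.variableChange_a₂, hC2s, hC2r, v2]
    simp
  · rw [mul_smul, ← hV, WeierstrassCurve.variableChange_a₃, hu, hC2r, hC2t, v3]
    simp only [zero_mul, mul_zero, add_zero]
    rw [map_mul, map_pow, map_inv₀, hb, inv_pow, inv_mul_cancel₀ (pow_ne_zero 3 hvg)]
  · rw [mul_smul, ← hV, WeierstrassCurve.variableChange_a₄, hC2s, hC2r, hC2t, v4]
    simp
  · rw [mul_smul, ← hV, WeierstrassCurve.variableChange_a₆, hC2r, hC2t, v6]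
    simp
  · rw [mul_smul, ← hV, WeierstrassCurve.variableChange_Δ, hu, vD, ← hg3, map_mul, map_mul,
      map_pow, map_pow, map_pow, map_inv₀, hb, inv_pow]
    have e1 : (v g ^ 3) ^ 3 * v g ^ 3 = v g ^ 12 := by
      rw [← pow_mul, ← pow_add]
    rw [e1, inv_mul_cancel₀ (pow_ne_zero 12 hvg)]

/-- the values of the parameter of the normal form of Legendre -/
theorem legendre_val {l : F} (hj : v (l ^ 2 - l + 1) ^ 3 ≤ v (l ^ 2 * (l - 1) ^ 2)) :
    v l = 1 ∧ v (l - 1) = 1 := by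
  have h0 : v l ≤ 1 := by
    by_contra h
    rw [not_le] at h
    have hp : 0 < v l := zero_lt_one.trans h
    have h1 : v (l - 1) = v l := by
      rw [Valuation.map_sub_eq_of_lt_left v (by rw [map_one]; exact h)]
    have h2 : v (l ^ 2 - l + 1) = v l ^ 2 := by
      have e : l ^ 2 - l + 1 = l ^ 2 - (l - 1) := by ring
      have h3 : v (l - 1) < v (l ^ 2) := by
        rw [h1, map_pow, sq]
        have := mul_lt_mul_of_pos_left h hp
        rwa [mul_one] at this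
      rw [e, Valuation.map_sub_eq_of_lt_left v h3, map_pow]
    rw [h2, map_mul, map_pow, map_pow, h1, ← pow_mul, ← pow_add] at hj
    exact absurd hj (not_le.2 (pow_lt_pow_right₀ h (by norm_num)))
  have h0' : v (l - 1) ≤ 1 := v.map_sub_le h0 (by rw [map_one])
  have hl : ¬ v l < 1 := by
    intro h
    have h2 : v (l ^ 2 - l + 1) = 1 := by
      have e : l ^ 2 - l + 1 = 1 + l * (l - 1) := by ring
      rw [e, Valuation.map_add_eq_of_lt_left v, map_one]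
      rw [map_one, map_mul]
      exact mul_lt_one_of_lt_of_le h h0'
    rw [h2, one_pow, map_mul, map_pow] at hj
    have h3 : v l ^ 2 * v ((l - 1) ^ 2) < 1 := by
      refine mul_lt_one_of_lt_of_le ?_ (pow_le h0' 2)
      rw [sq]
      exact mul_lt_one_of_lt_of_le h h.le
    exact absurd hj (not_le.2 h3)
  have hl' : ¬ v (l - 1) < 1 := by
    intro h
    have h2 : v (l ^ 2 - l + 1) = 1 := by
      have e : l ^ 2 - l + 1 = 1 + (l - 1) * l := by ring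
      rw [e, Valuation.map_add_eq_of_lt_left v, map_one]
      rw [map_one, map_mul]
      exact mul_lt_one_of_lt_of_le h h0
    rw [h2, one_pow, mul_comm (l ^ 2), map_mul, map_pow] at hj
    have h3 : v (l - 1) ^ 2 * v (l ^ 2) < 1 := by
      refine mul_lt_one_of_lt_of_le ?_ (pow_le h0 2)
      rw [sq]
      exact mul_lt_one_of_lt_of_le h h.le
    exact absurd hj (not_le.2 h3)
  exact ⟨le_antisymm h0 (not_lt.1 hl), le_antisymm h0' (not_lt.1 hl')⟩

/-- **The normal form of Legendre.** -/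
theorem legendre (h20 : (2 : F) ≠ 0) (hj : v (W.c₄ ^ 3) ≤ v W.Δ) (h2 : v 2 = 1)
    {P : W.toAffine.Point} (hP : P ≠ 0) (hPe : pe P = 0)
    {x : F} (hx : x ≠ px P)
    (hx2 : 4 * x ^ 3 + W.b₂ * x ^ 2 + 2 * W.b₄ * x + W.b₆ = 0) {d : F}
    (hd : d ^ 2 = px P - x) : ∃ C : VariableChange F, GoodW v (C • W) := by
  have e := p_eq hP
  obtain ⟨r, hr⟩ : ∃ r, r = px P := ⟨_, rfl⟩
  obtain ⟨t, ht⟩ : ∃ t, t = py P := ⟨_, rfl⟩
  have hp : 2 * t + W.a₁ * r + W.a₃ = 0 := by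
    have : 2 * t + W.a₁ * r + W.a₃ = pe P := by rw [hr, ht]; rfl
    rwa [this]
  rw [← hr] at hx e hd
  rw [← ht] at e
  have hd0 : d ≠ 0 := by
    rintro h
    rw [h, zero_pow (by norm_num)] at hd
    exact hx (by linear_combination hd)
  obtain ⟨s, hs⟩ : ∃ s, s = -W.a₁ / 2 := ⟨_, rfl⟩
  have hs2 : 2 * s = -W.a₁ := by
    rw [hs]
    field_simp
  obtain ⟨C, hC⟩ : ∃ C : VariableChange F, C = ⟨Units.mk0 d hd0, r, s, t⟩ := ⟨_, rfl⟩
  obtain ⟨V, hV⟩ : ∃ V : WeierstrassCurve F, V = C • W := ⟨_, rfl⟩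
  have hu : ((C.u⁻¹ : Fˣ) : F) = d⁻¹ := by
    rw [hC]
    rfl
  have hCr : C.r = r := by rw [hC]
  have hCs : C.s = s := by rw [hC]
  have hCt : C.t = t := by rw [hC]
  have v1 : V.a₁ = 0 := by
    rw [hV, WeierstrassCurve.variableChange_a₁, hCs, hs2, add_neg_cancel, mul_zero]
  have v3 : V.a₃ = 0 := by
    rw [hV, WeierstrassCurve.variableChange_a₃, hCr, hCt]
    have : W.a₃ + r * W.a₁ + 2 * t = 0 := by linear_combination hp
    rw [this, mul_zero]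
  have v6 : V.a₆ = 0 := by
    rw [hV, WeierstrassCurve.variableChange_a₆, hCr, hCt]
    have : W.a₆ + r * W.a₄ + r ^ 2 * W.a₂ + r ^ 3 - t * W.a₃ - t ^ 2 - r * t * W.a₁ = 0 := by
      linear_combination -e
    rw [this, mul_zero]
  obtain ⟨l, hl⟩ : ∃ l, l = V.a₄ := ⟨_, rfl⟩
  have hdi : d⁻¹ * d = 1 := inv_mul_cancel₀ hd0
  have v2 : V.a₂ = 1 + l := by
    have c2 : V.a₂ * d ^ 2 = W.a₂ - s * W.a₁ + 3 * r - s ^ 2 := by
      rw [hV, WeierstrassCurve.variableChange_a₂, hCr, hCs, hu]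
      have : d⁻¹ ^ 2 * (W.a₂ - s * W.a₁ + 3 * r - s ^ 2) * d ^ 2 =
          (d⁻¹ * d) ^ 2 * (W.a₂ - s * W.a₁ + 3 * r - s ^ 2) := by ring
      rw [this, hdi, one_pow, one_mul]
    have c4 : l * d ^ 4 = W.a₄ - s * W.a₃ + 2 * r * W.a₂ - (t + r * s) * W.a₁ + 3 * r ^ 2
        - 2 * s * t := by
      rw [hl, hV, WeierstrassCurve.variableChange_a₄, hCr, hCs, hCt, hu]
      have : d⁻¹ ^ 4 * (W.a₄ - s * W.a₃ + 2 * r * W.a₂ - (t + r * s) * W.a₁ + 3 * r ^ 2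
        - 2 * s * t) * d ^ 4 = (d⁻¹ * d) ^ 4 * (W.a₄ - s * W.a₃ + 2 * r * W.a₂ -
          (t + r * s) * W.a₁ + 3 * r ^ 2 - 2 * s * t) := by ring
      rw [this, hdi, one_pow, one_mul]
    -- `x` is a root
    have h4 : (4 : F) ≠ 0 := by
      have : (4 : F) = 2 * 2 := by norm_num
      rw [this]
      exact mul_ne_zero h20 h20
    have ex : x = r - d ^ 2 := by linear_combination hd
    have h5 : (4 * d ^ 4 * d ^ 2) * (V.a₂ - (1 + l)) = 0 := by
      unfold WeierstrassCurve.b₂ WeierstrassCurve.b₄ WeierstrassCurve.b₆ at hx2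
      rw [ex] at hx2
      have e1 : (4 * d ^ 4 * d ^ 2) * (V.a₂ - (1 + l)) = 4 * d ^ 4 * (V.a₂ * d ^ 2) -
          4 * d ^ 6 - 4 * d ^ 2 * (l * d ^ 4) := by ring
      rw [e1, c2, c4]
      have e3 : W.a₃ = -2 * t - W.a₁ * r := by linear_combination hp
      have e4 : W.a₁ = -2 * s := by linear_combination hs2
      rw [e3, e4] at hx2 e ⊢
      linear_combination hx2 + 4 * e
    have h6 : (4 * d ^ 4 * d ^ 2) ≠ 0 :=
      mul_ne_zero (mul_ne_zero h4 (pow_ne_zero 4 hd0)) (pow_ne_zero 2 hd0)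
    exact sub_eq_zero.1 ((mul_eq_zero.1 h5).resolve_left h6)
  have vb2 : V.b₂ = 4 * (1 + l) := by
    unfold WeierstrassCurve.b₂
    rw [v1, v2]
    ring
  have vb4 : V.b₄ = 2 * l := by
    unfold WeierstrassCurve.b₄
    rw [v1, v3, ← hl]
    ring
  have vb6 : V.b₆ = 0 := by
    unfold WeierstrassCurve.b₆
    rw [v3, v6]
    ring
  have vb8 : V.b₈ = -l ^ 2 := by
    unfold WeierstrassCurve.b₈
    rw [v1, v3, v6, ← hl]
    ring
  have vc4 : V.c₄ = 16 * (l ^ 2 - l + 1) := by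
    unfold WeierstrassCurve.c₄
    rw [vb2, vb4]
    ring
  have vD : V.Δ = 16 * (l ^ 2 * (l - 1) ^ 2) := by
    unfold WeierstrassCurve.Δ
    rw [vb2, vb4, vb6, vb8]
    ring
  have h16 : v (16 : F) = 1 := by
    have : (16 : F) = 2 ^ 4 := by norm_num
    rw [this, map_pow, h2, one_pow]
  have hjV : v (V.c₄ ^ 3) ≤ v V.Δ := by
    rw [hV]
    exact j_change C hj
  rw [vc4, vD, map_pow, map_mul, h16, one_mul, map_mul, h16, one_mul] at hjV
  obtain ⟨h5, h6⟩ := legendre_val hjV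
  refine ⟨C, ⟨⟨?_, ?_, ?_, ?_, ?_⟩, ?_⟩⟩
  · rw [← hV, v1, map_zero]
    exact zero_le'
  · rw [← hV, v2]
    exact v.map_add_le (by rw [map_one]) h5.le
  · rw [← hV, v3, map_zero]
    exact zero_le'
  · rw [← hV, ← hl]
    exact h5.le
  · rw [← hV, v6, map_zero]
    exact zero_le'
  · rw [← hV, vD, map_mul, map_mul, map_pow, map_pow, h16, h5, h6]
    simp

end

section
variable {F : Type*} [Field F] [DecidableEq F] {Γ : Type*} [LinearOrderedCommGroupWithZero Γ]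
  {v : Valuation F Γ} {W : WeierstrassCurve F}

/-- the abscissa of a point of order three -/
theorem psi_three {P : W.toAffine.Point} (hP : P ≠ 0) (h : 3 • P = 0) :
    pe P ≠ 0 ∧ 3 * px P ^ 4 + W.b₂ * px P ^ 3 + 3 * W.b₄ * px P ^ 2 + 3 * W.b₆ * px P + W.b₈ =
      0 := by
  have h1 : P + P = -P := by
    have e1 : (3 : ℕ) • P = P + P + P := by
      rw [show (3 : ℕ) = 2 + 1 from rfl, succ_nsmul, two_nsmul]
    rw [e1] at h
    exact eq_neg_of_add_eq_zero_left h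
  have hpe : pe P ≠ 0 := by
    intro h2
    rw [(dbl_zero hP).2 h2] at h1
    exact hP (neg_eq_zero.1 h1.symm)
  refine ⟨hpe, ?_⟩
  obtain ⟨-, h2, -⟩ := p_dbl hP hpe
  rw [h1, px_neg] at h2
  have e := p_eq hP
  obtain ⟨L, hL⟩ : ∃ L, L = (3 * px P ^ 2 + 2 * W.a₂ * px P + W.a₄ - W.a₁ * py P) / pe P :=
    ⟨_, rfl⟩
  have hLp : L * pe P = 3 * px P ^ 2 + 2 * W.a₂ * px P + W.a₄ - W.a₁ * py P := by
    rw [hL]
    exact div_mul_cancel₀ _ hpe
  rw [← hL] at h2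
  have h3 : (L * pe P) ^ 2 + W.a₁ * (L * pe P) * pe P - (W.a₂ + 3 * px P) * pe P ^ 2 = 0 := by
    linear_combination -(pe P ^ 2) * h2
  rw [hLp] at h3
  unfold pe at h3
  unfold WeierstrassCurve.b₂ WeierstrassCurve.b₄ WeierstrassCurve.b₆ WeierstrassCurve.b₈
  linear_combination (-W.a₁ ^ 2 - 4 * W.a₂ - 12 * px P) * e - h3

/-- the abscissae of the double of a point -/
theorem half_sq (h20 : (2 : F) ≠ 0) {Q : W.toAffine.Point} (hQ : Q ≠ 0) (hQe : pe Q ≠ 0) {x : F}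
    (hx : 4 * x ^ 3 + W.b₂ * x ^ 2 + 2 * W.b₄ * x + W.b₆ = 0) :
    ∃ d : F, d ^ 2 = px (Q + Q) - x ∧
      2 * d * pe Q = 2 * (px Q - x) ^ 2 - (6 * x ^ 2 + W.b₂ * x + W.b₄) := by
  obtain ⟨-, h2, -⟩ := p_dbl hQ hQe
  have e := p_eq hQ
  obtain ⟨L, hL⟩ : ∃ L, L = (3 * px Q ^ 2 + 2 * W.a₂ * px Q + W.a₄ - W.a₁ * py Q) / pe Q :=
    ⟨_, rfl⟩
  have hLp : L * pe Q = 3 * px Q ^ 2 + 2 * W.a₂ * px Q + W.a₄ - W.a₁ * py Q := by
    rw [hL]
    exact div_mul_cancel₀ _ hQe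
  rw [← hL] at h2
  obtain ⟨d, hd⟩ : ∃ d, d = (2 * (px Q - x) ^ 2 - (6 * x ^ 2 + W.b₂ * x + W.b₄)) / (2 * pe Q) :=
    ⟨_, rfl⟩
  have h2p : 2 * pe Q ≠ 0 := mul_ne_zero h20 hQe
  have hdp : d * (2 * pe Q) = 2 * (px Q - x) ^ 2 - (6 * x ^ 2 + W.b₂ * x + W.b₄) := by
    rw [hd]
    exact div_mul_cancel₀ _ h2p
  refine ⟨d, ?_, by rw [← hdp]; ring⟩
  refine mul_right_cancel₀ (pow_ne_zero 2 h2p) ?_
  have e1 : d ^ 2 * (2 * pe Q) ^ 2 = (d * (2 * pe Q)) ^ 2 := by ring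
  have e2 : (px (Q + Q) - x) * (2 * pe Q) ^ 2 = 4 * ((L * pe Q) ^ 2 + W.a₁ * (L * pe Q) * pe Q -
      (W.a₂ + 2 * px Q + x) * pe Q ^ 2) := by
    rw [h2]
    ring
  rw [e1, e2, hdp, hLp]
  unfold pe
  unfold WeierstrassCurve.b₂ WeierstrassCurve.b₄ WeierstrassCurve.b₆ at hx
  unfold WeierstrassCurve.b₂ WeierstrassCurve.b₄
  linear_combination (W.a₁ ^ 2 + 4 * W.a₂ + 4 * x + 8 * px Q) * hx -
    4 * (-W.a₁ ^ 2 - 4 * (W.a₂ + 2 * px Q + x)) * e

end

end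

end Pool.Agent.Lib.MP_1a91b9_nuX.GM
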