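import Mathlib

/-!
# Places of number fields: inertia and Frobenius; descent of an element to the base field
-/

set_option autoImplicit false

namespace Pool.Agent.Lib.MP_1a91b9_nuX.GM

open NumberField IsDedekindDomain

noncomputable section

section
variable {k M : Type*} [Field k] [NumberField k] [Field M] [NumberField M] [Algebra k M]

private theorem plc_pow {w : HeightOneSpectrum (𝓞 M)} {σ : Gal(M/k)}
    (hσ : ∀ x : 𝓞 M, σ • x ∈ w.asIdeal ↔ x ∈ w.asIdeal) (x : 𝓞 M) (n : ℕ) :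
    σ • x ∈ w.asIdeal ^ n ↔ x ∈ w.asIdeal ^ n := by
  have h1 : w.asIdeal = w.asIdeal.map (MulSemiringAction.toRingEquiv Gal(M/k) (𝓞 M) σ) := by
    rw [← Ideal.comap_symm]
    ext z
    rw [Ideal.mem_comap]
    change z ∈ w.asIdeal ↔ σ⁻¹ • z ∈ w.asIdeal
    have h2 := hσ (σ⁻¹ • z)
    rw [smul_inv_smul] at h2
    exact h2
  nth_rewrite 1 [h1]
  rw [← Ideal.map_pow, ← Ideal.comap_symm, Ideal.mem_comap]
  change σ⁻¹ • σ • x ∈ _ ↔ _
  rw [inv_smul_smul]

private theorem plc_int {w : HeightOneSpectrum (𝓞 M)} {σ : Gal(M/k)}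
    (hσ : ∀ x : 𝓞 M, σ • x ∈ w.asIdeal ↔ x ∈ w.asIdeal) (x : 𝓞 M) :
    w.intValuation (σ • x) = w.intValuation x := by
  rcases eq_or_ne x 0 with rfl | hx
  · rw [smul_zero]
  · have hx' : σ • x ≠ 0 := by
      intro h0
      exact hx ((smul_eq_zero_iff_eq σ).1 h0)
    have h : ∀ n : ℕ, w.intValuation (σ • x) ≤ WithZero.exp (-(n : ℤ)) ↔
        w.intValuation x ≤ WithZero.exp (-(n : ℤ)) := by
      intro n
      rw [HeightOneSpectrum.intValuation_le_pow_iff_mem,
        HeightOneSpectrum.intValuation_le_pow_iff_mem, plc_pow hσ]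
    apply le_antisymm
    · rw [w.intValuation_if_neg hx]
      exact (h _).2 (w.intValuation_if_neg hx).le
    · rw [w.intValuation_if_neg hx']
      exact (h _).1 (w.intValuation_if_neg hx').le

/-- an automorphism which preserves the place preserves the values -/
theorem val_gal {w : HeightOneSpectrum (𝓞 M)} {σ : Gal(M/k)}
    (hσ : ∀ x : 𝓞 M, σ • x ∈ w.asIdeal ↔ x ∈ w.asIdeal) (y : M) :
    w.valuation M (σ y) = w.valuation M y := by
  obtain ⟨a, b, hb, rfl⟩ := IsFractionRing.div_surjective (A := 𝓞 M) y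
  have h1 : ∀ x : 𝓞 M, σ (algebraMap (𝓞 M) M x) = algebraMap (𝓞 M) M (σ • x) := fun x => rfl
  rw [map_div₀, map_div₀, map_div₀, h1, h1]
  simp only [HeightOneSpectrum.valuation_of_algebraMap, plc_int hσ]

/-- the inertia preserves the place -/
theorem inert_mem {w : HeightOneSpectrum (𝓞 M)} {σ : Gal(M/k)}
    (hσ : ∀ x : 𝓞 M, σ • x - x ∈ w.asIdeal) (x : 𝓞 M) : σ • x ∈ w.asIdeal ↔ x ∈ w.asIdeal := by
  constructor
  · intro h
    have := w.asIdeal.sub_mem h (hσ x)
    rwa [sub_sub_cancel] at this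
  · intro h
    have := w.asIdeal.add_mem (hσ x) h
    rwa [sub_add_cancel] at this

/-- a Frobenius automorphism preserves the place -/
theorem frob_mem {w : HeightOneSpectrum (𝓞 M)} {φ : Gal(M/k)} {q : ℕ} (hq : q ≠ 0)
    (hφ : ∀ x : 𝓞 M, φ • x - x ^ q ∈ w.asIdeal) (x : 𝓞 M) :
    φ • x ∈ w.asIdeal ↔ x ∈ w.asIdeal := by
  have := w.isPrime
  constructor
  · intro h
    have h1 := w.asIdeal.sub_mem h (hφ x)
    rw [sub_sub_cancel] at h1
    exact this.mem_of_pow_mem _ h1
  · intro h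
    have h1 := w.asIdeal.add_mem (hφ x) (w.asIdeal.pow_mem_of_mem h q (Nat.pos_of_ne_zero hq))
    rwa [sub_add_cancel] at h1

/-- approximation by integers -/
theorem exists_int {w : HeightOneSpectrum (𝓞 M)} {a : M} (ha : w.valuation M a ≤ 1) :
    ∃ x : 𝓞 M, w.valuation M (a - (x : M)) < 1 := by
  obtain ⟨x, hx⟩ := w.exists_valuation_sub_lt_of_integer ha 1
  refine ⟨x, ?_⟩
  rw [Valuation.map_sub_swap]
  exact hx

theorem val_lt_mem {w : HeightOneSpectrum (𝓞 M)} (x : 𝓞 M) :
    w.valuation M (x : M) < 1 ↔ x ∈ w.asIdeal := by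
  change w.valuation M (algebraMap (𝓞 M) M x) < 1 ↔ _
  rw [HeightOneSpectrum.valuation_of_algebraMap]
  exact HeightOneSpectrum.intValuation_lt_one_iff_mem _ _

theorem val_le (w : HeightOneSpectrum (𝓞 M)) (x : 𝓞 M) : w.valuation M (x : M) ≤ 1 :=
  w.valuation_le_one x

/-- the inertia acts trivially on the reduction -/
theorem inert_cong {w : HeightOneSpectrum (𝓞 M)} {σ : Gal(M/k)}
    (hσ : ∀ x : 𝓞 M, σ • x - x ∈ w.asIdeal) {a : M} (ha : w.valuation M a ≤ 1) :
    w.valuation M (σ a - a) < 1 := by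
  obtain ⟨x, hx1⟩ := exists_int ha
  have h2 : w.valuation M (σ (a - (x : M))) < 1 := by
    rwa [val_gal (inert_mem hσ)]
  have h3 : w.valuation M (σ (x : M) - (x : M)) < 1 := by
    have e : σ (x : M) - (x : M) = ((σ • x - x : 𝓞 M) : M) := rfl
    rw [e, val_lt_mem]
    exact hσ x
  have e : σ a - a = σ (a - (x : M)) + (σ (x : M) - (x : M)) - (a - (x : M)) := by
    rw [map_sub]
    ring
  rw [e]
  exact Valuation.map_sub_lt _ (Valuation.map_add_lt _ h2 h3) hx1

/-- the values of the elements of the base field -/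
theorem val_base (w : HeightOneSpectrum (𝓞 M)) (x : k) :
    w.valuation M (algebraMap k M x) =
      (w.under (𝓞 k)).valuation k x ^ (w.asIdeal.ramificationIdx (𝓞 k)) := by
  have h : w.asIdeal.LiesOver (w.under (𝓞 k)).asIdeal := ⟨rfl⟩
  have hp : w.asIdeal.IsPrime := w.isPrime
  rw [← HeightOneSpectrum.valuation_liesOver M (w.under (𝓞 k)) w x,
    Ideal.ramificationIdx'_eq_ramificationIdx _ _ (w.under (𝓞 k)).ne_bot]

/-- an element whose residue class is fixed by a Frobenius automorphism -/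
theorem res_fix {w : HeightOneSpectrum (𝓞 M)} {φ : Gal(M/k)}
    (hφ : ∀ x : 𝓞 M, φ • x - x ^ Nat.card (𝓞 k ⧸ (w.under (𝓞 k)).asIdeal) ∈ w.asIdeal) {y : M}
    (hy : w.valuation M y ≤ 1) (h : w.valuation M (φ y - y) < 1) :
    ∃ z : 𝓞 k, w.valuation M (y - algebraMap k M (z : k)) < 1 := by
  obtain ⟨p, hp⟩ : ∃ p, p = (w.under (𝓞 k)).asIdeal := ⟨_, rfl⟩
  obtain ⟨q, hq⟩ : ∃ q, q = Nat.card (𝓞 k ⧸ (w.under (𝓞 k)).asIdeal) := ⟨_, rfl⟩
  rw [← hq] at hφ
  have hmaxA : (w.under (𝓞 k)).asIdeal.IsMaximal := (w.under (𝓞 k)).isMaximal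
  have hmaxB : w.asIdeal.IsMaximal := w.isMaximal
  have hfinA : Finite (𝓞 k ⧸ (w.under (𝓞 k)).asIdeal) :=
    Ideal.finiteQuotientOfFreeOfNeBot _ (w.under (𝓞 k)).ne_bot
  let fA : Field (𝓞 k ⧸ (w.under (𝓞 k)).asIdeal) := Ideal.Quotient.field _
  let fB : Field (𝓞 M ⧸ w.asIdeal) := Ideal.Quotient.field _
  let ftA : Fintype (𝓞 k ⧸ (w.under (𝓞 k)).asIdeal) := Fintype.ofFinite _
  have hq1 : 1 < q := by
    rw [hq]
    exact Finite.one_lt_card
  have hq0 : q ≠ 0 := by omega
  obtain ⟨x, hx⟩ := exists_int hy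
  -- the class of `x` is fixed
  have hval := val_gal (frob_mem hq0 hφ)
  have h1 : w.valuation M (φ (x : M) - (x : M)) < 1 := by
    have e : φ (x : M) - (x : M) = (φ y - y) + (y - (x : M)) - φ (y - (x : M)) := by
      rw [map_sub]
      ring
    rw [e]
    refine Valuation.map_sub_lt _ (Valuation.map_add_lt _ h hx) ?_
    rwa [hval]
  have h2 : φ • x - x ∈ w.asIdeal := by
    rw [← val_lt_mem]
    exact h1
  have h3 : x ^ q - x ∈ w.asIdeal := by
    have h4 := w.asIdeal.sub_mem h2 (hφ x)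
    rwa [sub_sub_sub_cancel_left] at h4
  -- the map of the residue fields
  let i : (𝓞 k ⧸ (w.under (𝓞 k)).asIdeal) →+* (𝓞 M ⧸ w.asIdeal) :=
    Ideal.quotientMap w.asIdeal (algebraMap (𝓞 k) (𝓞 M)) le_rfl
  have hi : Function.Injective i := i.injective
  obtain ⟨b, hb⟩ : ∃ b, b = Ideal.Quotient.mk w.asIdeal x := ⟨_, rfl⟩
  have hbq : b ^ q = b := by
    rw [hb, ← map_pow]
    exact Ideal.Quotient.eq.2 h3
  classical
  have hroot : ∀ c : 𝓞 M ⧸ w.asIdeal, c ^ q = c →
      c ∈ (Polynomial.X ^ q - Polynomial.X : Polynomial (𝓞 M ⧸ w.asIdeal)).roots.toFinset := by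
    intro c hc
    rw [Multiset.mem_toFinset, Polynomial.mem_roots
      (FiniteField.X_pow_card_sub_X_ne_zero (𝓞 M ⧸ w.asIdeal) hq1)]
    simp [Polynomial.IsRoot.def, hc]
  have hsub : (Finset.univ.image i) ⊆
      (Polynomial.X ^ q - Polynomial.X : Polynomial (𝓞 M ⧸ w.asIdeal)).roots.toFinset := by
    intro c hc
    obtain ⟨a, -, rfl⟩ := Finset.mem_image.1 hc
    apply hroot
    rw [← map_pow, hq, Nat.card_eq_fintype_card, FiniteField.pow_card]
  have hcard : (Polynomial.X ^ q - Polynomial.X : Polynomial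
      (𝓞 M ⧸ w.asIdeal)).roots.toFinset.card ≤ (Finset.univ.image i).card := by
    rw [Finset.card_image_of_injective _ hi, Finset.card_univ, ← Nat.card_eq_fintype_card, ← hq]
    refine (Multiset.toFinset_card_le _).trans ((Polynomial.card_roots' _).trans ?_)
    rw [FiniteField.X_pow_card_sub_X_natDegree_eq _ hq1]
  have heq := Finset.eq_of_subset_of_card_le hsub hcard
  have hbm := hroot b hbq
  rw [← heq] at hbm
  obtain ⟨a, -, ha⟩ := Finset.mem_image.1 hbm
  obtain ⟨z, rfl⟩ := Ideal.Quotient.mk_surjective a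
  refine ⟨z, ?_⟩
  have h5 : x - algebraMap (𝓞 k) (𝓞 M) z ∈ w.asIdeal := by
    rw [← Ideal.Quotient.eq, ← hb, ← ha]
    rfl
  have h6 : w.valuation M ((x : M) - algebraMap k M (z : k)) < 1 := (val_lt_mem _).2 h5
  have e : y - algebraMap k M (z : k) = (y - (x : M)) + ((x : M) - algebraMap k M (z : k)) := by
    ring
  rw [e]
  exact Valuation.map_add_lt _ hx h6

end

section
variable {k M : Type*} [Field k] [NumberField k] [Field M] [NumberField M] [Algebra k M]
  [IsGalois k M]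

/-- existence of a Frobenius automorphism -/
theorem exists_frob (w : HeightOneSpectrum (𝓞 M)) :
    ∃ φ : Gal(M/k), ∀ x : 𝓞 M,
      φ • x - x ^ Nat.card (𝓞 k ⧸ (w.under (𝓞 k)).asIdeal) ∈ w.asIdeal := by
  have hfin : Finite (𝓞 M ⧸ w.asIdeal) := Ideal.finiteQuotientOfFreeOfNeBot _ w.ne_bot
  have hprime := w.isPrime
  obtain ⟨φ, hφ⟩ := IsArithFrobAt.exists_of_isInvariant (𝓞 k) Gal(M/k) w.asIdeal
  exact ⟨φ, hφ⟩

/-- the inertia field is unramified over the base -/
theorem inert_unr (w : HeightOneSpectrum (𝓞 M)) :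
    (w.under (𝓞 (IntermediateField.fixedField (w.asIdeal.inertia Gal(M/k))))).asIdeal.ramificationIdx
      (𝓞 k) = 1 := by
  have hp : w.asIdeal.IsPrime := w.isPrime
  obtain ⟨L, hL⟩ : ∃ L, L = IntermediateField.fixedField (w.asIdeal.inertia Gal(M/k)) := ⟨_, rfl⟩
  rw [← hL]
  have gL : IsGalois L M := IsGalois.tower_top_of_isGalois k L M
  have hfin1 : Finite (𝓞 k ⧸ w.asIdeal.under (𝓞 k)) :=
    Ideal.finiteQuotientOfFreeOfNeBot _ (w.under (𝓞 k)).ne_bot
  have hfin2 : Finite (𝓞 L ⧸ w.asIdeal.under (𝓞 L)) :=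
    Ideal.finiteQuotientOfFreeOfNeBot _ (w.under (𝓞 L)).ne_bot
  have h1 := Ideal.card_inertia_eq_ramificationIdxIn (G := Gal(M/k)) (w.asIdeal.under (𝓞 k))
    w.asIdeal
  rw [Ideal.ramificationIdxIn_eq_ramificationIdx _ w.asIdeal Gal(M/k)] at h1
  have h2 := Ideal.card_inertia_eq_ramificationIdxIn (G := Gal(M/L)) (w.asIdeal.under (𝓞 L))
    w.asIdeal
  rw [Ideal.ramificationIdxIn_eq_ramificationIdx _ w.asIdeal Gal(M/L)] at h2
  have h3 : w.asIdeal.inertia Gal(M/L) = ⊤ := by
    rw [eq_top_iff]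
    intro σ _ x
    have h4 : (σ.restrictScalars k : Gal(M/k)) ∈ w.asIdeal.inertia Gal(M/k) := by
      rw [← IntermediateField.fixingSubgroup_fixedField (w.asIdeal.inertia Gal(M/k)), ← hL,
        IntermediateField.mem_fixingSubgroup_iff]
      intro y hy
      exact σ.commutes ⟨y, hy⟩
    exact h4 x
  have h4 : Nat.card (w.asIdeal.inertia Gal(M/L)) = Nat.card (w.asIdeal.inertia Gal(M/k)) := by
    rw [h3, Nat.card_congr Subgroup.topEquiv.toEquiv, IsGalois.card_aut_eq_finrank, hL,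
      IntermediateField.finrank_fixedField_eq_card]
  have h5 := Ideal.ramificationIdx_tower (R := 𝓞 k) (w.asIdeal.under (𝓞 L)) w.asIdeal
  rw [← h1, ← h2, h4] at h5
  have h6 : 0 < Nat.card (w.asIdeal.inertia Gal(M/k)) := Nat.card_pos
  exact Nat.eq_of_mul_eq_mul_right h6 (by rw [one_mul]; exact h5.symm)

/-- the values of the elements fixed by the inertia -/
theorem val_inert {w : HeightOneSpectrum (𝓞 M)} {x : M}
    (hx : ∀ σ : Gal(M/k), (∀ y : 𝓞 M, σ • y - y ∈ w.asIdeal) → σ x = x) :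
    ∃ y : k, w.valuation M (algebraMap k M y) = w.valuation M x := by
  rcases eq_or_ne x 0 with rfl | hx0
  · exact ⟨0, by rw [map_zero]⟩
  have hun := inert_unr (k := k) w
  obtain ⟨L, hL⟩ : ∃ L, L = IntermediateField.fixedField (w.asIdeal.inertia Gal(M/k)) := ⟨_, rfl⟩
  rw [← hL] at hun
  have hxL : x ∈ L := by
    rw [hL, IntermediateField.mem_fixedField_iff]
    intro σ hσ
    exact hx σ hσ
  have hxL0 : (⟨x, hxL⟩ : L) ≠ 0 := by
    intro h
    exact hx0 (congrArg Subtype.val h)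
  obtain ⟨n, hn⟩ : ∃ n : ℤ, (w.under (𝓞 L)).valuation L ⟨x, hxL⟩ = WithZero.exp n :=
    ⟨_, (WithZero.exp_log ((Valuation.ne_zero_iff _).2 hxL0)).symm⟩
  obtain ⟨π, hπ⟩ := (w.under (𝓞 k)).valuation_exists_uniformizer k
  refine ⟨π ^ (-n), ?_⟩
  have e1 : algebraMap k M (π ^ (-n)) = algebraMap L M (algebraMap k L (π ^ (-n))) :=
    IsScalarTower.algebraMap_apply k L M _
  have e2 : x = algebraMap L M ⟨x, hxL⟩ := rfl
  have e3 : (w.under (𝓞 L)).valuation L (algebraMap k L (π ^ (-n))) = WithZero.exp n := by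
    have h1 := val_base (w.under (𝓞 L)) (π ^ (-n))
    have h2 : (w.under (𝓞 L)).under (𝓞 k) = w.under (𝓞 k) := by
      apply HeightOneSpectrum.ext
      exact Ideal.under_under w.asIdeal
    rw [h1, hun, pow_one, h2, map_zpow₀, hπ, ← WithZero.exp_zsmul]
    simp
  rw [e1, e2, val_base (k := L) w, val_base (k := L) w, e3, hn]

/-- **Descent of an element.** -/
theorem desc {w : HeightOneSpectrum (𝓞 M)} {φ : Gal(M/k)}
    (hφ : ∀ x : 𝓞 M, φ • x - x ^ Nat.card (𝓞 k ⧸ (w.under (𝓞 k)).asIdeal) ∈ w.asIdeal) {r : M}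
    (hr : ∀ σ : Gal(M/k), (∀ y : 𝓞 M, σ • y - y ∈ w.asIdeal) → σ r = r)
    (hf : w.valuation M (φ r - r) ≤ 1) :
    ∃ z : k, w.valuation M (r - algebraMap k M z) ≤ 1 := by
  have key : ∀ (n : ℕ) (r : M), (∀ σ : Gal(M/k), (∀ y : 𝓞 M, σ • y - y ∈ w.asIdeal) → σ r = r) →
      w.valuation M (φ r - r) ≤ 1 → w.valuation M r ≤ WithZero.exp (n : ℤ) →
      ∃ z : k, w.valuation M (r - algebraMap k M z) ≤ 1 := by
    intro n
    induction n with
    | zero =>
      intro r _ _ h
      refine ⟨0, ?_⟩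
      rw [map_zero, sub_zero]
      simpa using h
    | succ n ih =>
      intro r hr hf h
      by_cases h1 : w.valuation M r ≤ WithZero.exp (n : ℤ)
      · exact ih r hr hf h1
      · rw [not_le] at h1
        have h1' : 1 < w.valuation M r := by
          refine lt_of_le_of_lt ?_ h1
          rw [← WithZero.exp_zero, WithZero.exp_le_exp]
          positivity
        obtain ⟨y, hy⟩ := val_inert hr
        have hr0 : w.valuation M r ≠ 0 := (zero_lt_one.trans h1').ne'
        have hy0 : algebraMap k M y ≠ 0 := by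
          intro h0
          rw [h0, map_zero] at hy
          exact hr0 hy.symm
        have e1 : φ (r / algebraMap k M y) - r / algebraMap k M y =
            (φ r - r) / algebraMap k M y := by
          rw [map_div₀, AlgEquiv.commutes]
          ring
        have h2 : w.valuation M (r / algebraMap k M y) ≤ 1 := by
          rw [map_div₀, hy, div_self hr0]
        have h3 : w.valuation M (φ (r / algebraMap k M y) - r / algebraMap k M y) < 1 := by
          rw [e1, map_div₀, hy]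
          refine (div_lt_one₀ (zero_lt_one.trans h1')).2 (lt_of_le_of_lt hf h1')
        obtain ⟨z₁, hz₁⟩ := res_fix hφ h2 h3
        obtain ⟨z, hz⟩ := ih (r - algebraMap k M (y * z₁)) (fun σ hσ => by
            rw [map_sub, hr σ hσ, AlgEquiv.commutes])
          (by
            have e2 : φ (r - algebraMap k M (y * z₁)) - (r - algebraMap k M (y * z₁)) =
                φ r - r := by
              rw [map_sub, AlgEquiv.commutes]
              ring
            rwa [e2])
          (by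
            have e2 : r - algebraMap k M (y * z₁) =
                algebraMap k M y * (r / algebraMap k M y - algebraMap k M (z₁ : k)) := by
              rw [map_mul]
              field_simp
            have h4 : w.valuation M (r - algebraMap k M (y * z₁)) < w.valuation M r := by
              rw [e2, map_mul, hy]
              have := mul_lt_mul_of_pos_left hz₁ (zero_lt_iff.2 hr0)
              rwa [mul_one] at this
            have h5 := lt_of_lt_of_le h4 h
            have e3 : (WithZero.exp ((n + 1 : ℕ) : ℤ)) = WithZero.exp (n : ℤ) * WithZero.exp 1 := by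
              rw [← WithZero.exp_add, Nat.cast_succ]
            rw [e3, WithZero.lt_mul_exp_iff_le WithZero.exp_ne_zero] at h5
            exact h5)
        refine ⟨z + y * z₁, ?_⟩
        rw [map_add, add_comm, ← sub_sub]
        exact hz
  obtain ⟨n, hn⟩ : ∃ n : ℕ, w.valuation M r ≤ WithZero.exp (n : ℤ) := by
    refine ⟨(WithZero.log (w.valuation M r)).toNat, WithZero.le_exp_of_log_le ?_⟩
    exact Int.self_le_toNat _
  exact key n r hr hf hn

end

end

end Pool.Agent.Lib.MP_1a91b9_nuX.GM
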