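import Pool.Agent.Lib.MP_1a91b9_nuX.GM.Alg
import Pool.Agent.Lib.MP_1a91b9_nt.VcPoint

/-!
# Change of variables and of the field; torsion in the kernel of reduction
-/

set_option autoImplicit false

namespace Pool.Agent.Lib.MP_1a91b9_nuX.GM

open WeierstrassCurve

noncomputable section

section
variable {F : Type*} [Field F] [DecidableEq F]

/-- the isomorphism defined by a change of variables -/
theorem exists_chg (W : WeierstrassCurve F) (C : VariableChange F) :
    ∃ e : W.toAffine.Point ≃+ (C • W).toAffine.Point, ∀ P : W.toAffine.Point, P ≠ 0 →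
      px P = (C.u : F) ^ 2 * px (e P) + C.r ∧
      py P = (C.u : F) ^ 3 * py (e P) + (C.u : F) ^ 2 * C.s * px (e P) + C.t := by
  obtain ⟨e, he⟩ := Pool.Agent.Lib.MP_1a91b9_nt.exists_point_equiv W C
  refine ⟨e.symm, fun P hP => ?_⟩
  obtain ⟨Q, rfl⟩ := e.surjective P
  rw [e.symm_apply_apply]
  rcases Q with _ | ⟨x, y, h⟩
  · exact absurd (map_zero e) hP
  · obtain ⟨h', h1⟩ := he x y h
    rw [h1]
    exact ⟨rfl, rfl⟩

/-- the change of the field -/
theorem exists_map (W : WeierstrassCurve F) (F' : Type*) [Field F'] [DecidableEq F']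
    [Algebra F F'] : ∃ φ : W.toAffine.Point →+ (W.map (algebraMap F F')).toAffine.Point,
      Function.Injective φ ∧ (∀ P, px (φ P) = algebraMap F F' (px P)) ∧
      ∀ P, py (φ P) = algebraMap F F' (py P) := by
  refine ⟨Affine.Point.map (W' := W) (Algebra.ofId F F'),
    Affine.Point.map_injective (W' := W) (Algebra.ofId F F'), fun P => ?_, fun P => ?_⟩
  · rcases P with _ | ⟨x, y, h⟩
    · exact (map_zero (algebraMap F F')).symm
    · rfl
  · rcases P with _ | ⟨x, y, h⟩
    · exact (map_zero (algebraMap F F')).symm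
    · rfl

variable {Γ : Type*} [LinearOrderedCommGroupWithZero Γ] {v : Valuation F Γ}
  {W : WeierstrassCurve F}

/-- a good model is a good model over an extension -/
theorem good_map {F' : Type*} [Field F'] [Algebra F F'] {Γ' : Type*}
    [LinearOrderedCommGroupWithZero Γ'] {v' : Valuation F' Γ'}
    (h : ∀ x : F, v' (algebraMap F F' x) ≤ 1 ↔ v x ≤ 1) (hW : GoodW v W) :
    GoodW v' (W.map (algebraMap F F')) := by
  refine ⟨⟨(h _).2 hW.a1, (h _).2 hW.a2, (h _).2 hW.a3, (h _).2 hW.a4, (h _).2 hW.a6⟩, ?_⟩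
  rw [WeierstrassCurve.map_Δ]
  exact (val_ext_eq v v' h _).2 hW.disc

/-- **No torsion prime to the residue characteristic** in the kernel of reduction. -/
theorem tors_kr (hW : GoodW v W) {B : W.toAffine.Point} (hB : Kr v B) {m : ℕ}
    (hm : v (m : F) = 1) (h : m • B = 0) : B = 0 := by
  classical
  obtain ⟨V, hV⟩ := exists_val_ext (F' := AlgebraicClosure F) v
  obtain ⟨φ, hφ, hx, -⟩ := exists_map W (AlgebraicClosure F)
  have hW' := good_map (v' := V.valuation) hV hW
  obtain ⟨S, hS, hSe⟩ := exists_unit_pt hW'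
  have hB' : Kr V.valuation (φ B) := by
    rcases hB with h1 | h1
    · left
      rw [h1, map_zero]
    · right
      rw [hx, ← not_le, hV, not_le]
      exact h1
  have hm' : V.valuation (m : AlgebraicClosure F) = 1 := by
    have h1 := (val_ext_eq v V.valuation hV (m : F)).2 hm
    rwa [map_natCast] at h1
  have h1 := kr_tors hW'.toIntW hS hSe hB' hm' (by rw [← map_nsmul, h, map_zero])
  exact hφ (by rw [h1, map_zero])

/-- a point some multiple of which is a nonzero torsion point of order prime to the residue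
characteristic is not in the kernel of reduction -/
theorem not_kr_of_tors (hW : GoodW v W) {R : W.toAffine.Point} {k n : ℕ}
    (hn : v (n : F) = 1) (h1 : k • R ≠ 0) (h2 : n • k • R = 0) : ¬ Kr v R := fun h =>
  h1 (tors_kr hW (kr_nsmul hW.toIntW h k) hn h2)

end

end

end Pool.Agent.Lib.MP_1a91b9_nuX.GM
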