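import Pool.Agent.Lib.MP_1a91b9_nuX.GM.Chg

/-!
# The values of the differences of abscissae at a place of potential good reduction
-/

set_option autoImplicit false

namespace Pool.Agent.Lib.MP_1a91b9_nuX.GM

open WeierstrassCurve

noncomputable section

section
variable {F : Type*} [Field F] [DecidableEq F] {Γ : Type*} [LinearOrderedCommGroupWithZero Γ]
  (v : Valuation F Γ) {W : WeierstrassCurve F}

/-- some multiple is a nonzero torsion point of order prime to the residue characteristic -/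
def NKr (R : W.toAffine.Point) : Prop := ∃ k n : ℕ, v (n : F) = 1 ∧ k • R ≠ 0 ∧ n • k • R = 0

variable {v}

theorem NKr.ne {R : W.toAffine.Point} (h : NKr v R) : R ≠ 0 := by
  obtain ⟨k, n, -, h1, -⟩ := h
  rintro rfl
  exact h1 (smul_zero k)

theorem NKr.neg {R : W.toAffine.Point} (h : NKr v R) : NKr v (-R) := by
  obtain ⟨k, n, h0, h1, h2⟩ := h
  refine ⟨k, n, h0, ?_, ?_⟩
  · rwa [smul_neg, Ne, neg_eq_zero]
  · rw [smul_neg, smul_neg, h2, neg_zero]

/-- a nonzero torsion point of order prime to the residue characteristic -/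
theorem NKr.of {R : W.toAffine.Point} (h0 : R ≠ 0) {n : ℕ} (hn : v (n : F) = 1)
    (h : n • R = 0) : NKr v R := ⟨1, n, hn, by rwa [one_smul], by rwa [one_smul]⟩

/-- the sum of a nonzero torsion point of order `n` prime to the residue characteristic and a point
of order prime to `n` -/
theorem NKr.add {P Q : W.toAffine.Point} (h0 : P ≠ 0) {n m : ℕ} (hn : v (n : F) = 1)
    (h : n • P = 0) (hm : m • Q = 0) (hnm : n.Coprime m) : NKr v (P + Q) := by
  refine ⟨m, n, hn, ?_, ?_⟩
  · rw [smul_add, hm, add_zero]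
    intro h1
    apply h0
    have h2 : (n.gcd m : ℤ) • P = 0 := by
      rw [Nat.gcd_eq_gcd_ab, add_smul, mul_comm, mul_smul, mul_comm, mul_smul, natCast_zsmul,
        natCast_zsmul, h, h1, smul_zero, smul_zero, add_zero]
    rwa [hnm, Nat.cast_one, one_smul] at h2
  · rw [smul_add, hm, add_zero, smul_smul, mul_comm, ← smul_smul, h, smul_zero]

/-- **the values of the differences of abscissae** in terms of a good model -/
theorem exists_sep (h20 : (2 : F) ≠ 0) (h30 : (3 : F) ≠ 0) (hΔ : W.Δ ≠ 0)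
    (hj : v (W.c₄ ^ 3) ≤ v W.Δ) :
    ∃ (V : ValuationSubring (AlgebraicClosure F)) (d : AlgebraicClosure F)
      (X : W.toAffine.Point → AlgebraicClosure F),
      (∀ x : F, V.valuation (algebraMap F (AlgebraicClosure F) x) ≤ 1 ↔ v x ≤ 1) ∧ d ≠ 0 ∧
      (∀ R : W.toAffine.Point, NKr v R → V.valuation (X R) ≤ 1) ∧
      ∀ A S : W.toAffine.Point, NKr v A → NKr v (A - S) → NKr v (A + S) → S ≠ 0 →
        V.valuation (algebraMap F (AlgebraicClosure F) (px A - px S)) =
          V.valuation d * max 1 (V.valuation (X S)) := by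
  classical
  obtain ⟨V, hV⟩ := exists_val_ext (F' := AlgebraicClosure F) v
  obtain ⟨φ, hφ, hx, -⟩ := exists_map W (AlgebraicClosure F)
  obtain ⟨W', hW'⟩ : ∃ W' : WeierstrassCurve (AlgebraicClosure F),
      W' = W.map (algebraMap F (AlgebraicClosure F)) := ⟨_, rfl⟩
  have hinj : Function.Injective (algebraMap F (AlgebraicClosure F)) :=
    (algebraMap F (AlgebraicClosure F)).injective
  have hle : ∀ x y : F, v x ≤ v y → V.valuation (algebraMap F (AlgebraicClosure F) x) ≤
      V.valuation (algebraMap F (AlgebraicClosure F) y) := by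
    intro x y hxy
    rcases eq_or_ne y 0 with rfl | hy
    · rw [map_zero, nonpos_iff_eq_zero, Valuation.zero_iff] at hxy
      rw [hxy]
    · have hy' : V.valuation (algebraMap F (AlgebraicClosure F) y) ≠ 0 :=
        (Valuation.ne_zero_iff _).2 (by rwa [Ne, map_eq_zero])
      have h1 := (hV (x / y)).2 (by
        rw [map_div₀]
        exact div_le_one_of_le₀ hxy zero_le')
      rw [map_div₀, map_div₀] at h1
      exact (div_le_one₀ (zero_lt_iff.2 hy')).1 h1
  have h20' : (2 : AlgebraicClosure F) ≠ 0 := by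
    intro h
    apply h20
    apply hinj
    rw [map_ofNat, map_zero, h]
  have h30' : (3 : AlgebraicClosure F) ≠ 0 := by
    intro h
    apply h30
    apply hinj
    rw [map_ofNat, map_zero, h]
  have hΔ' : W'.Δ ≠ 0 := by
    rw [hW', WeierstrassCurve.map_Δ]
    rwa [Ne, map_eq_zero]
  have hj' : V.valuation (W'.c₄ ^ 3) ≤ V.valuation W'.Δ := by
    rw [hW', WeierstrassCurve.map_Δ, WeierstrassCurve.map_c₄, ← map_pow]
    exact hle _ _ hj
  obtain ⟨C, hC⟩ := exists_good h20' h30' hΔ' hj'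
  subst hW'
  obtain ⟨e, he⟩ := exists_chg (W.map (algebraMap F (AlgebraicClosure F))) C
  have hN : ∀ R : W.toAffine.Point, NKr v R → ¬ Kr V.valuation (e (φ R)) := by
    rintro R ⟨k, n, h0, h1, h2⟩
    have h0' : V.valuation (n : AlgebraicClosure F) = 1 := by
      have h3 := (val_ext_eq v V.valuation hV (n : F)).2 h0
      rwa [map_natCast] at h3
    refine not_kr_of_tors (k := k) (n := n) hC h0' ?_ ?_
    · rw [← map_nsmul, ← map_nsmul]
      intro h3
      exact h1 (hφ (e.injective (by rw [h3, map_zero, map_zero])))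
    · rw [← map_nsmul, ← map_nsmul, ← map_nsmul, ← map_nsmul, h2, map_zero, map_zero]
  have hu : (C.u : AlgebraicClosure F) ≠ 0 := C.u.ne_zero
  refine ⟨V, (C.u : AlgebraicClosure F) ^ 2, fun R => px (e (φ R)), hV, pow_ne_zero 2 hu,
    fun R hR => (not_kr (hN R hR)).2, fun A S hA h1 h2 hS => ?_⟩
  have hφA : φ A ≠ 0 := by
    rw [Ne, map_eq_zero_iff φ hφ]
    exact hA.ne
  have hφS : φ S ≠ 0 := by
    rw [Ne, map_eq_zero_iff φ hφ]
    exact hS
  obtain ⟨a1, -⟩ := he (φ A) hφA
  obtain ⟨a2, -⟩ := he (φ S) hφS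
  have e1 : algebraMap F (AlgebraicClosure F) (px A - px S) =
      (C.u : AlgebraicClosure F) ^ 2 * (px (e (φ A)) - px (e (φ S))) := by
    rw [map_sub, ← hx, ← hx, a1, a2]
    ring
  have h1' := hN _ h1
  have h2' := hN _ h2
  rw [map_sub, map_sub] at h1'
  rw [map_add, map_add] at h2'
  rw [e1, map_mul, v_px_sub hC (hN A hA) (by rwa [Ne, EmbeddingLike.map_eq_zero_iff]) h1' h2']

/-- transfer of equalities of values -/
theorem val_eq_of_ext {F' : Type*} [Field F'] [Algebra F F'] {Γ' : Type*}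
    [LinearOrderedCommGroupWithZero Γ'] {v' : Valuation F' Γ'}
    (h : ∀ x : F, v' (algebraMap F F' x) ≤ 1 ↔ v x ≤ 1) {x y : F} (hy : y ≠ 0)
    (hxy : v' (algebraMap F F' x) = v' (algebraMap F F' y)) : v x = v y := by
  have hy' : v' (algebraMap F F' y) ≠ 0 := (Valuation.ne_zero_iff _).2 (by rwa [Ne, map_eq_zero])
  have hyv : v y ≠ 0 := (Valuation.ne_zero_iff _).2 hy
  have h1 := (val_ext_eq v v' h (x / y)).1 (by rw [map_div₀, map_div₀, hxy, div_self hy'])
  rw [map_div₀] at h1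
  exact (div_eq_one_iff_eq hyv).1 h1

theorem px_sub_ne {A S : W.toAffine.Point} (hA : A ≠ 0) (hS : S ≠ 0) (h1 : NKr v (A - S))
    (h2 : NKr v (A + S)) : px A - px S ≠ 0 := by
  intro h
  rcases (px_eq_iff hA hS).1 (sub_eq_zero.1 h) with h3 | h3
  · exact h1.ne (by rw [h3, sub_self])
  · exact h2.ne (by rw [h3, neg_add_cancel])

/-- **The values of `x(A) - x(S)` do not depend on `A`.** -/
theorem v_sub_congr (h20 : (2 : F) ≠ 0) (h30 : (3 : F) ≠ 0) (hΔ : W.Δ ≠ 0)
    (hj : v (W.c₄ ^ 3) ≤ v W.Δ) {A A' S : W.toAffine.Point} (hS : S ≠ 0) (hA : NKr v A)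
    (h1 : NKr v (A - S)) (h2 : NKr v (A + S)) (hA' : NKr v A') (h1' : NKr v (A' - S))
    (h2' : NKr v (A' + S)) : v (px A - px S) = v (px A' - px S) := by
  obtain ⟨V, d, X, hV, hd, -, hX⟩ := exists_sep h20 h30 hΔ hj
  exact val_eq_of_ext hV (px_sub_ne hA'.ne hS h1' h2')
    ((hX A S hA h1 h2 hS).trans (hX A' S hA' h1' h2' hS).symm)

/-- **The values of `x(A) - x(B)` are all equal.** -/
theorem v_sub_const (h20 : (2 : F) ≠ 0) (h30 : (3 : F) ≠ 0) (hΔ : W.Δ ≠ 0)
    (hj : v (W.c₄ ^ 3) ≤ v W.Δ) {A B A' B' : W.toAffine.Point} (hA : NKr v A) (hB : NKr v B)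
    (h1 : NKr v (A - B)) (h2 : NKr v (A + B)) (hA' : NKr v A') (hB' : NKr v B')
    (h1' : NKr v (A' - B')) (h2' : NKr v (A' + B')) : v (px A - px B) = v (px A' - px B') := by
  obtain ⟨V, d, X, hV, hd, hI, hX⟩ := exists_sep h20 h30 hΔ hj
  refine val_eq_of_ext hV (px_sub_ne hA'.ne hB'.ne h1' h2') ?_
  rw [hX A B hA h1 h2 hB.ne, hX A' B' hA' h1' h2' hB'.ne, max_eq_left (hI B hB),
    max_eq_left (hI B' hB')]

end

end

end Pool.Agent.Lib.MP_1a91b9_nuX.GM
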