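import Pool.Agent.Lib.MP_1a91b9_nuX.GM.Desc

/-!
# The criterion of Néron, Ogg and Shafarevich

`nos`: if the curve has a good model at the place below `w`, the inertia at `w` fixes the torsion
points of order prime to the residue characteristic. `conv_three`, `conv_two`: the converse for
curves with integral `j`-invariant, by means of the points of order three or four.
-/

set_option autoImplicit false

namespace Pool.Agent.Lib.MP_1a91b9_nuX.GM

open WeierstrassCurve NumberField IsDedekindDomain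

noncomputable section

section
variable {k M : Type*} [Field k] [NumberField k] [Field M] [NumberField M] [Algebra k M]
  {W : WeierstrassCurve k} {w : HeightOneSpectrum (𝓞 M)}

/-- the action of the Galois group on the points -/
def gact [DecidableEq M] (σ : Gal(M/k)) : (W.map (algebraMap k M)).toAffine.Point →+
    (W.map (algebraMap k M)).toAffine.Point := Affine.Point.map (W' := W) (σ : M →ₐ[k] M)

theorem px_gact [DecidableEq M] (σ : Gal(M/k)) (P : (W.map (algebraMap k M)).toAffine.Point) :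
    px (gact σ P) = σ (px P) := by
  rcases P with _ | ⟨x, y, h⟩
  · exact (map_zero σ).symm
  · rfl

theorem py_gact [DecidableEq M] (σ : Gal(M/k)) (P : (W.map (algebraMap k M)).toAffine.Point) :
    py (gact σ P) = σ (py P) := by
  rcases P with _ | ⟨x, y, h⟩
  · exact (map_zero σ).symm
  · rfl

theorem gact_ne [DecidableEq M] (σ : Gal(M/k)) {P : (W.map (algebraMap k M)).toAffine.Point}
    (hP : P ≠ 0) : gact σ P ≠ 0 := fun h =>
  hP (Affine.Point.map_injective (W' := W) (σ : M →ₐ[k] M) (h.trans (map_zero _).symm))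

/-- **The inertia acts trivially on the torsion prime to the residue characteristic** at a place of
good reduction. -/
theorem nos [DecidableEq M] {C : VariableChange k}
    (hC : GoodW ((w.under (𝓞 k)).valuation k) (C • W)) {σ : Gal(M/k)}
    (hσ : ∀ x : 𝓞 M, σ • x - x ∈ w.asIdeal) {P : (W.map (algebraMap k M)).toAffine.Point} {n : ℕ}
    (hn : w.valuation M (n : M) = 1) (h : n • P = 0) : gact σ P = P := by
  classical
  by_contra hne
  have hP0 : P ≠ 0 := by
    rintro rfl
    exact hne (map_zero _)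
  have hG : GoodW (w.valuation M) ((C.map (algebraMap k M)) • W.map (algebraMap k M)) := by
    rw [WeierstrassCurve.map_variableChange]
    exact good_map (val_under w) hC
  obtain ⟨e, he⟩ := exists_chg (W.map (algebraMap k M)) (C.map (algebraMap k M))
  have hn0 : ∀ R : (W.map (algebraMap k M)).toAffine.Point, R ≠ 0 → n • R = 0 →
      ¬ Kr (w.valuation M) (e R) := by
    intro R hR hR2
    refine not_kr_of_tors (k := 1) (n := n) hG hn ?_ ?_
    · rw [one_smul]
      intro h1
      exact hR (e.injective (by rw [h1, map_zero]))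
    · rw [one_smul, ← map_nsmul, hR2, map_zero]
  have hσP0 : gact σ P ≠ 0 := gact_ne σ hP0
  have hσP : n • gact σ P = 0 := by rw [← map_nsmul, h, map_zero]
  have h1 := hn0 P hP0 h
  have h2 := hn0 _ hσP0 hσP
  obtain ⟨u, hu⟩ : ∃ u, u = ((C.map (algebraMap k M)).u : M) := ⟨_, rfl⟩
  obtain ⟨r, hr⟩ : ∃ r, r = (C.map (algebraMap k M)).r := ⟨_, rfl⟩
  obtain ⟨s, hs⟩ : ∃ s, s = (C.map (algebraMap k M)).s := ⟨_, rfl⟩
  obtain ⟨t, ht⟩ : ∃ t, t = (C.map (algebraMap k M)).t := ⟨_, rfl⟩
  have hu0 : u ≠ 0 := by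
    rw [hu]
    exact ((C.map (algebraMap k M)).u).ne_zero
  obtain ⟨x1, y1⟩ := he P hP0
  obtain ⟨x2, y2⟩ := he _ hσP0
  rw [← hu, ← hr] at x1 x2
  rw [← hu, ← hs, ← ht] at y1 y2
  have hσu : σ u = u := by
    rw [hu]
    exact σ.commutes (C.u : k)
  have hσr : σ r = r := by
    rw [hr]
    exact σ.commutes C.r
  have hσs : σ s = s := by
    rw [hs]
    exact σ.commutes C.s
  have hσt : σ t = t := by
    rw [ht]
    exact σ.commutes C.t
  have ex : px (e (gact σ P)) = σ (px (e P)) := by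
    rw [px_gact, x1, map_add, map_mul, map_pow, hσu, hσr] at x2
    have h3 := add_right_cancel x2
    exact (mul_left_cancel₀ (pow_ne_zero 2 hu0) h3).symm
  have ey : py (e (gact σ P)) = σ (py (e P)) := by
    rw [py_gact, y1, map_add, map_add, map_mul, map_mul, map_mul, map_pow, map_pow, hσu, hσs, hσt,
      ex] at y2
    have h3 := add_right_cancel (add_right_cancel y2)
    exact (mul_left_cancel₀ (pow_ne_zero 3 hu0) h3).symm
  have h3 : Kr (w.valuation M) (e (gact σ P) - e P) := by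
    refine kr_sub hG h2 h1 ?_ ?_
    · rw [ex]
      exact inert_cong hσ (not_kr h1).2
    · rw [ey]
      exact inert_cong hσ (py_le hG.toIntW h1)
  rw [← map_sub] at h3
  have h4 : gact σ P - P ≠ 0 := fun h0 => hne (sub_eq_zero.1 h0)
  exact hn0 _ h4 (by rw [smul_sub, hσP, h, sub_zero]) h3

variable [IsGalois k M]

/-- descent of a good model from the inertia field -/
theorem desc_inert (L : IntermediateField k M)
    (hL : L = IntermediateField.fixedField (w.asIdeal.inertia Gal(M/k)))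
    (h : ∃ C : VariableChange L, GoodW ((w.valuation M).comap (algebraMap L M))
      (C • W.map (algebraMap k L))) :
    ∃ C : VariableChange k, GoodW ((w.under (𝓞 k)).valuation k) (C • W) := by
  obtain ⟨C, hC⟩ := h
  have hfix : ∀ x : L, ∀ σ : Gal(M/k), (∀ y : 𝓞 M, σ • y - y ∈ w.asIdeal) →
      σ (algebraMap L M x) = algebraMap L M x := by
    intro x σ hσ
    have h1 : (x : M) ∈ IntermediateField.fixedField (w.asIdeal.inertia Gal(M/k)) := by
      rw [← hL]
      exact x.2
    rw [IntermediateField.mem_fixedField_iff] at h1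
    exact h1 σ hσ
  have hu : algebraMap L M (C.u : L) ≠ 0 := by
    rw [Ne, map_eq_zero]
    exact C.u.ne_zero
  refine desc_good (u := algebraMap L M (C.u : L)) (r := algebraMap L M C.r)
    (s := algebraMap L M C.s) (t := algebraMap L M C.t) hu (fun σ hσ =>
      ⟨hfix _ σ hσ, hfix _ σ hσ, hfix _ σ hσ, hfix _ σ hσ⟩) ?_
  have e1 : (⟨Units.mk0 (algebraMap L M (C.u : L)) hu, algebraMap L M C.r, algebraMap L M C.s,
      algebraMap L M C.t⟩ : VariableChange M) = C.map (algebraMap L M) := by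
    ext
    · rfl
    · rfl
    · rfl
    · rfl
  have e2 : W.map (algebraMap k M) = (W.map (algebraMap k L)).map (algebraMap L M) := by
    rw [WeierstrassCurve.map_map, IsScalarTower.algebraMap_eq k L M]
  rw [e1, e2, WeierstrassCurve.map_variableChange]
  exact ⟨⟨hC.a1, hC.a2, hC.a3, hC.a4, hC.a6⟩, by
    rw [WeierstrassCurve.map_Δ]
    exact hC.disc⟩

/-- the descent of a fixed element -/
theorem exists_fixed {L : IntermediateField k M}
    (hL : L = IntermediateField.fixedField (w.asIdeal.inertia Gal(M/k))) {x : M}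
    (hx : ∀ σ : Gal(M/k), (∀ y : 𝓞 M, σ • y - y ∈ w.asIdeal) → σ x = x) :
    ∃ y : L, algebraMap L M y = x := by
  have h1 : x ∈ L := by
    rw [hL, IntermediateField.mem_fixedField_iff]
    intro σ hσ
    exact hx σ hσ
  exact ⟨⟨x, h1⟩, rfl⟩

theorem j_up (hj : (w.under (𝓞 k)).valuation k (W.c₄ ^ 3) ≤ (w.under (𝓞 k)).valuation k W.Δ) :
    w.valuation M (algebraMap k M (W.c₄ ^ 3)) ≤ w.valuation M (algebraMap k M W.Δ) := by
  rw [val_base, val_base]
  exact pow_le_pow_left' hj _

theorem one_up {x : k} (hx : (w.under (𝓞 k)).valuation k x = 1) :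
    w.valuation M (algebraMap k M x) = 1 := by
  rw [val_base, hx, one_pow]

end

/-- descent of a point -/
theorem lift_pt {L M : Type*} [Field L] [Field M] [Algebra L M] {V : WeierstrassCurve L}
    (hΔ : V.Δ ≠ 0) {P : (V.map (algebraMap L M)).toAffine.Point} (hP : P ≠ 0) {x y : L}
    (hx : algebraMap L M x = px P) (hy : algebraMap L M y = py P) :
    ∃ P' : V.toAffine.Point, P' ≠ 0 ∧ px P' = x ∧ py P' = y ∧
      algebraMap L M (pe P') = pe P := by
  have e := p_eq hP
  rw [← hx, ← hy] at e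
  obtain ⟨P', h0, h1, h2⟩ := exists_pt (W := V) hΔ (x := x) (y := y) (by
    apply (algebraMap L M).injective
    rw [map_add, map_add, map_add, map_add, map_add, map_mul, map_mul, map_mul, map_mul, map_mul,
      map_pow, map_pow, map_pow]
    exact e)
  refine ⟨P', h0, h1, h2, ?_⟩
  unfold pe
  rw [h1, h2, map_add, map_add, map_mul, map_mul, map_ofNat, hx, hy]
  rfl

section
variable {k M : Type*} [Field k] [NumberField k] [Field M] [NumberField M] [Algebra k M]
  {W : WeierstrassCurve k} {w : HeightOneSpectrum (𝓞 M)} [IsGalois k M]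

/-- **The converse** with the points of order three. -/
theorem conv_three [DecidableEq M] (hΔ : W.Δ ≠ 0)
    (hj : (w.under (𝓞 k)).valuation k (W.c₄ ^ 3) ≤ (w.under (𝓞 k)).valuation k W.Δ)
    (h3 : (w.under (𝓞 k)).valuation k 3 = 1)
    {P Q : (W.map (algebraMap k M)).toAffine.Point} (hP : P ≠ 0) (hQ : Q ≠ 0)
    (hP3 : 3 • P = 0) (hQ3 : 3 • Q = 0) (hPQ : Q ≠ P) (hPQ' : Q ≠ -P)
    (hIP : ∀ σ : Gal(M/k), (∀ y : 𝓞 M, σ • y - y ∈ w.asIdeal) → gact σ P = P)
    (hIQ : ∀ σ : Gal(M/k), (∀ y : 𝓞 M, σ • y - y ∈ w.asIdeal) → gact σ Q = Q) :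
    ∃ C : VariableChange k, GoodW ((w.under (𝓞 k)).valuation k) (C • W) := by
  obtain ⟨L, hL⟩ : ∃ L, L = IntermediateField.fixedField (w.asIdeal.inertia Gal(M/k)) := ⟨_, rfl⟩
  refine desc_inert L hL ?_
  obtain ⟨x, hx⟩ := exists_fixed hL (x := px P)
    (fun σ hσ => by rw [← px_gact, hIP σ hσ])
  obtain ⟨y, hy⟩ := exists_fixed hL (x := py P)
    (fun σ hσ => by rw [← py_gact, hIP σ hσ])
  obtain ⟨z, hz⟩ := exists_fixed hL (x := px Q)
    (fun σ hσ => by rw [← px_gact, hIQ σ hσ])
  obtain ⟨pP, qP⟩ := psi_three hP hP3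
  obtain ⟨-, qQ⟩ := psi_three hQ hQ3
  have hxz : px P ≠ px Q := by
    intro h
    rcases (px_eq_iff hQ hP).1 h.symm with h1 | h1
    · exact hPQ h1
    · exact hPQ' h1
  have hjM := j_up (M := M) hj
  have h3M := one_up (M := M) h3
  rw [map_ofNat] at h3M
  have e2 : W.map (algebraMap k M) = (W.map (algebraMap k L)).map (algebraMap L M) := by
    rw [WeierstrassCurve.map_map, IsScalarTower.algebraMap_eq k L M]
  have hΔL : (W.map (algebraMap k L)).Δ ≠ 0 := by
    rw [WeierstrassCurve.map_Δ]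
    rwa [Ne, map_eq_zero]
  have hjL : w.valuation M (algebraMap L M ((W.map (algebraMap k L)).c₄ ^ 3)) ≤
      w.valuation M (algebraMap L M (W.map (algebraMap k L)).Δ) := by
    rw [WeierstrassCurve.map_c₄, WeierstrassCurve.map_Δ, ← map_pow,
      ← IsScalarTower.algebraMap_apply, ← IsScalarTower.algebraMap_apply]
    exact hjM
  obtain ⟨V, hV⟩ : ∃ V, V = W.map (algebraMap k L) := ⟨_, rfl⟩
  rw [← hV] at e2 hΔL hjL ⊢
  clear hIP hIQ hP3 hQ3 hPQ hPQ'
  generalize W.map (algebraMap k M) = W' at P Q e2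
  subst e2
  obtain ⟨P', h0, h1, h2, h4⟩ := lift_pt hΔL hP hx hy
  have psi : ∀ t : L, 3 * (algebraMap L M t) ^ 4 + (V.map (algebraMap L M)).b₂ *
      (algebraMap L M t) ^ 3 + 3 * (V.map (algebraMap L M)).b₄ * (algebraMap L M t) ^ 2 +
      3 * (V.map (algebraMap L M)).b₆ * (algebraMap L M t) + (V.map (algebraMap L M)).b₈ = 0 →
      3 * t ^ 4 + V.b₂ * t ^ 3 + 3 * V.b₄ * t ^ 2 + 3 * V.b₆ * t + V.b₈ = 0 := by
    intro t ht
    apply (algebraMap L M).injective
    rw [WeierstrassCurve.map_b₂, WeierstrassCurve.map_b₄, WeierstrassCurve.map_b₆,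
      WeierstrassCurve.map_b₈] at ht
    rw [map_zero, ← ht]
    simp only [map_add, map_mul, map_pow, map_ofNat]
  refine deuring hΔL hjL ?_ h0 ?_ ?_ (x := z) ?_ ?_
  · change w.valuation M (algebraMap L M 3) = 1
    rwa [map_ofNat]
  · intro h5
    rw [h5, map_zero] at h4
    exact pP h4.symm
  · rw [h1]
    apply psi
    rw [hx]
    exact qP
  · rw [h1]
    intro h5
    apply hxz
    rw [← hx, ← hz, h5]
  · apply psi
    rw [hz]
    exact qQ

/-- **The converse** with the points of order four. -/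
theorem conv_two [DecidableEq M] (hΔ : W.Δ ≠ 0)
    (hj : (w.under (𝓞 k)).valuation k (W.c₄ ^ 3) ≤ (w.under (𝓞 k)).valuation k W.Δ)
    (h2 : (w.under (𝓞 k)).valuation k 2 = 1)
    {Q T : (W.map (algebraMap k M)).toAffine.Point} (hT : T ≠ 0) (hT2 : 2 • T = 0)
    (hQ2 : 2 • Q ≠ 0) (hQ4 : 4 • Q = 0) (hQT : T ≠ 2 • Q)
    (hIQ : ∀ σ : Gal(M/k), (∀ y : 𝓞 M, σ • y - y ∈ w.asIdeal) → gact σ Q = Q)
    (hIT : ∀ σ : Gal(M/k), (∀ y : 𝓞 M, σ • y - y ∈ w.asIdeal) → gact σ T = T) :
    ∃ C : VariableChange k, GoodW ((w.under (𝓞 k)).valuation k) (C • W) := by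
  obtain ⟨L, hL⟩ : ∃ L, L = IntermediateField.fixedField (w.asIdeal.inertia Gal(M/k)) := ⟨_, rfl⟩
  refine desc_inert L hL ?_
  have hQ0 : Q ≠ 0 := by
    rintro rfl
    exact hQ2 (smul_zero _)
  have hIP : ∀ σ : Gal(M/k), (∀ y : 𝓞 M, σ • y - y ∈ w.asIdeal) → gact σ (2 • Q) = 2 • Q := by
    intro σ hσ
    rw [map_nsmul, hIQ σ hσ]
  have h20 : (2 : M) ≠ 0 := two_ne_zero
  have pP : pe (2 • Q) = 0 := by
    rw [← dbl_zero hQ2, ← two_nsmul, smul_smul]
    exact hQ4
  have pT : pe T = 0 := by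
    rw [← dbl_zero hT, ← two_nsmul]
    exact hT2
  have pQ : pe Q ≠ 0 := by
    intro h
    rw [← dbl_zero hQ0, ← two_nsmul] at h
    exact hQ2 h
  have hxz : px (2 • Q) ≠ px T := by
    intro h
    rcases (px_eq_iff hT hQ2).1 h.symm with h1 | h1
    · exact hQT h1
    · apply hQT
      have h3 : T = -T := by
        have h4 : T + T = 0 := by rw [← two_nsmul]; exact hT2
        exact eq_neg_of_add_eq_zero_left h4
      rw [h3, h1, neg_neg]
  have qT := pe_sq hT
  rw [pT, zero_pow (by norm_num)] at qT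
  obtain ⟨d, hd, hd2⟩ := half_sq h20 hQ0 pQ (x := px T) qT.symm
  rw [← two_nsmul] at hd
  have hdσ : ∀ σ : Gal(M/k), (∀ y : 𝓞 M, σ • y - y ∈ w.asIdeal) → σ d = d := by
    intro σ hσ
    have ex : σ (px Q) = px Q := by rw [← px_gact, hIQ σ hσ]
    have ey : σ (py Q) = py Q := by rw [← py_gact, hIQ σ hσ]
    have et : σ (px T) = px T := by rw [← px_gact, hIT σ hσ]
    have ep : σ (pe Q) = pe Q := by
      unfold pe
      rw [map_add, map_add, map_mul, map_mul, map_ofNat, ex, ey]
      congr 2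
      · congr 1
        exact σ.commutes W.a₁
      · exact σ.commutes W.a₃
    have h3 : 2 * σ d * pe Q = 2 * d * pe Q := by
      have h4 := congrArg σ hd2
      rw [map_mul, map_mul, map_ofNat, ep] at h4
      rw [h4, hd2]
      simp only [map_sub, map_add, map_mul, map_pow, map_ofNat, ex, et]
      congr 2
      · congr 2
        rw [WeierstrassCurve.map_b₂]
        exact σ.commutes W.b₂
      · rw [WeierstrassCurve.map_b₄]
        exact σ.commutes W.b₄
    exact mul_left_cancel₀ h20 (mul_right_cancel₀ pQ h3)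
  obtain ⟨x, hx⟩ := exists_fixed hL (x := px (2 • Q))
    (fun σ hσ => by rw [← px_gact, hIP σ hσ])
  obtain ⟨y, hy⟩ := exists_fixed hL (x := py (2 • Q))
    (fun σ hσ => by rw [← py_gact, hIP σ hσ])
  obtain ⟨z, hz⟩ := exists_fixed hL (x := px T)
    (fun σ hσ => by rw [← px_gact, hIT σ hσ])
  obtain ⟨c, hc⟩ := exists_fixed hL hdσ
  have hjM := j_up (M := M) hj
  have h2M := one_up (M := M) h2
  rw [map_ofNat] at h2M
  have e2 : W.map (algebraMap k M) = (W.map (algebraMap k L)).map (algebraMap L M) := by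
    rw [WeierstrassCurve.map_map, IsScalarTower.algebraMap_eq k L M]
  have hΔL : (W.map (algebraMap k L)).Δ ≠ 0 := by
    rw [WeierstrassCurve.map_Δ]
    rwa [Ne, map_eq_zero]
  have hjL : w.valuation M (algebraMap L M ((W.map (algebraMap k L)).c₄ ^ 3)) ≤
      w.valuation M (algebraMap L M (W.map (algebraMap k L)).Δ) := by
    rw [WeierstrassCurve.map_c₄, WeierstrassCurve.map_Δ, ← map_pow,
      ← IsScalarTower.algebraMap_apply, ← IsScalarTower.algebraMap_apply]
    exact hjM
  obtain ⟨V, hV⟩ : ∃ V, V = W.map (algebraMap k L) := ⟨_, rfl⟩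
  rw [← hV] at e2 hΔL hjL ⊢
  clear hd2 pQ hdσ
  obtain ⟨P, hP⟩ : ∃ P, P = 2 • Q := ⟨_, rfl⟩
  rw [← hP] at hQ2 pP hxz hd hx hy
  clear hIP hIQ hQ4 hQT hT2 hIT hP hQ0
  clear Q
  generalize W.map (algebraMap k M) = W' at P T e2
  subst e2
  obtain ⟨P', h0, h1, h3, h4⟩ := lift_pt hΔL hQ2 hx hy
  refine legendre (two_ne_zero) hjL ?_ h0 ?_ (x := z) ?_ ?_ (d := c) ?_
  · change w.valuation M (algebraMap L M 2) = 1
    rwa [map_ofNat]
  · rw [pP, map_eq_zero] at h4
    exact h4
  · rw [h1]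
    intro h5
    apply hxz
    rw [← hx, ← hz, h5]
  · apply (algebraMap L M).injective
    rw [WeierstrassCurve.map_b₂, WeierstrassCurve.map_b₄, WeierstrassCurve.map_b₆, ← hz] at qT
    rw [map_zero, qT]
    simp only [map_add, map_mul, map_pow, map_ofNat]
  · apply (algebraMap L M).injective
    rw [map_pow, map_sub, hc, h1, hx, hz]
    exact hd

end

end

end Pool.Agent.Lib.MP_1a91b9_nuX.GM
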