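import Mathlib

/-!
# Points of a Weierstrass curve with integral coefficients: addition formulas
-/

set_option autoImplicit false

namespace Pool.Agent.Lib.MP_1a91b9_nuX.GM

open WeierstrassCurve

noncomputable section

section
variable {F : Type*} [Field F] [DecidableEq F] {W : WeierstrassCurve F}

/-- the abscissa of a point (`0` for the zero point) -/
def px : W.toAffine.Point → F
  | Affine.Point.zero => 0
  | Affine.Point.some x _ _ => x

/-- the ordinate of a point (`0` for the zero point) -/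
def py : W.toAffine.Point → F
  | Affine.Point.zero => 0
  | Affine.Point.some _ y _ => y

/-- the value of `2 y + a₁ x + a₃` -/
def pe (P : W.toAffine.Point) : F := 2 * py P + W.a₁ * px P + W.a₃

omit [DecidableEq F] in
theorem p_eq {P : W.toAffine.Point} (hP : P ≠ 0) :
    py P ^ 2 + W.a₁ * px P * py P + W.a₃ * py P =
      px P ^ 3 + W.a₂ * px P ^ 2 + W.a₄ * px P + W.a₆ := by
  rcases P with _ | ⟨x, y, h⟩
  · exact absurd rfl hP
  · exact (Affine.equation_iff _ _).1 h.1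

omit [DecidableEq F] in
theorem px_neg (P : W.toAffine.Point) : px (-P) = px P := by
  rcases P with _ | ⟨x, y, h⟩
  · rfl
  · rfl

omit [DecidableEq F] in
theorem py_neg {P : W.toAffine.Point} (hP : P ≠ 0) :
    py (-P) = -py P - W.a₁ * px P - W.a₃ := by
  rcases P with _ | ⟨x, y, h⟩
  · exact absurd rfl hP
  · rfl

omit [DecidableEq F] in
theorem p_ext {P Q : W.toAffine.Point} (hP : P ≠ 0) (hQ : Q ≠ 0) (hx : px P = px Q)
    (hy : py P = py Q) : P = Q := by
  rcases P with _ | ⟨x, y, h⟩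
  · exact absurd rfl hP
  · rcases Q with _ | ⟨x', y', h'⟩
    · exact absurd rfl hQ
    · rw [Affine.Point.some.injEq]
      exact ⟨hx, hy⟩

omit [DecidableEq F] in
/-- two points with the same abscissa -/
theorem px_eq_iff {P Q : W.toAffine.Point} (hP : P ≠ 0) (hQ : Q ≠ 0) :
    px P = px Q ↔ P = Q ∨ P = -Q := by
  rcases P with _ | ⟨x, y, h⟩
  · exact absurd rfl hP
  · rcases Q with _ | ⟨x', y', h'⟩
    · exact absurd rfl hQ
    · exact Affine.Point.X_eq_iff

/-- the addition of two points with different abscissae -/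
theorem p_add {A B : W.toAffine.Point} (hA : A ≠ 0) (hB : B ≠ 0) (h : px A ≠ px B) :
    A + B ≠ 0 ∧ px (A + B) = ((py A - py B) / (px A - px B)) ^ 2 +
        W.a₁ * ((py A - py B) / (px A - px B)) - W.a₂ - px A - px B ∧
      py (A + B) = -((py A - py B) / (px A - px B) * (px (A + B) - px A) + py A) -
        W.a₁ * px (A + B) - W.a₃ := by
  rcases A with _ | ⟨x₁, y₁, h₁⟩
  · exact absurd rfl hA
  rcases B with _ | ⟨x₂, y₂, h₂⟩
  · exact absurd rfl hB
  have hx : x₁ ≠ x₂ := h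
  have e := Affine.Point.add_of_X_ne (h₁ := h₁) (h₂ := h₂) hx
  have hX : px (Affine.Point.some x₁ y₁ h₁ + Affine.Point.some x₂ y₂ h₂) =
      W.toAffine.addX x₁ x₂ (W.toAffine.slope x₁ x₂ y₁ y₂) := by
    rw [e]
    rfl
  have hY : py (Affine.Point.some x₁ y₁ h₁ + Affine.Point.some x₂ y₂ h₂) =
      W.toAffine.addY x₁ x₂ y₁ (W.toAffine.slope x₁ x₂ y₁ y₂) := by
    rw [e]
    rfl
  refine ⟨by rw [e]; exact Affine.Point.some_ne_zero _, ?_, ?_⟩
  · rw [hX, Affine.slope_of_X_ne hx]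
    rfl
  · rw [hY, hX, Affine.addY, Affine.negAddY, Affine.negY, Affine.slope_of_X_ne hx]
    rfl

/-- the abscissa of a sum -/
theorem px_add {A B : W.toAffine.Point} (hA : A ≠ 0) (hB : B ≠ 0) (h : px A ≠ px B) :
    px (A + B) * (px A - px B) ^ 2 = px A * px B * (px A + px B) + 2 * W.a₂ * px A * px B +
      W.a₄ * (px A + px B) + 2 * W.a₆ - 2 * py A * py B -
      W.a₁ * (px A * py B + px B * py A) - W.a₃ * (py A + py B) := by
  obtain ⟨-, h1, -⟩ := p_add hA hB h
  have hd : px A - px B ≠ 0 := sub_ne_zero.2 h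
  have e1 := p_eq hA
  have e2 := p_eq hB
  rw [h1]
  field_simp
  linear_combination e1 + e2

/-- the duplication formula -/
theorem p_dbl {A : W.toAffine.Point} (hA : A ≠ 0) (h : pe A ≠ 0) :
    A + A ≠ 0 ∧ px (A + A) = ((3 * px A ^ 2 + 2 * W.a₂ * px A + W.a₄ - W.a₁ * py A) / pe A) ^ 2 +
        W.a₁ * ((3 * px A ^ 2 + 2 * W.a₂ * px A + W.a₄ - W.a₁ * py A) / pe A) - W.a₂ -
        px A - px A ∧
      py (A + A) = -((3 * px A ^ 2 + 2 * W.a₂ * px A + W.a₄ - W.a₁ * py A) / pe A *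
        (px (A + A) - px A) + py A) - W.a₁ * px (A + A) - W.a₃ := by
  rcases A with _ | ⟨x₁, y₁, h₁⟩
  · exact absurd rfl hA
  have hp : y₁ - W.toAffine.negY x₁ y₁ = 2 * y₁ + W.a₁ * x₁ + W.a₃ := by
    rw [Affine.negY]
    ring
  have hy : y₁ ≠ W.toAffine.negY x₁ y₁ := by
    intro h2
    apply h
    have h3 : pe (Affine.Point.some x₁ y₁ h₁) = 2 * y₁ + W.a₁ * x₁ + W.a₃ := rfl
    rw [h3, ← hp, ← h2, sub_self]
  have e := Affine.Point.add_self_of_Y_ne (h₁ := h₁) hy
  have hX : px (Affine.Point.some x₁ y₁ h₁ + Affine.Point.some x₁ y₁ h₁) =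
      W.toAffine.addX x₁ x₁ (W.toAffine.slope x₁ x₁ y₁ y₁) := by
    rw [e]
    rfl
  have hY : py (Affine.Point.some x₁ y₁ h₁ + Affine.Point.some x₁ y₁ h₁) =
      W.toAffine.addY x₁ x₁ y₁ (W.toAffine.slope x₁ x₁ y₁ y₁) := by
    rw [e]
    rfl
  have hs : W.toAffine.slope x₁ x₁ y₁ y₁ =
      (3 * x₁ ^ 2 + 2 * W.a₂ * x₁ + W.a₄ - W.a₁ * y₁) / (2 * y₁ + W.a₁ * x₁ + W.a₃) := by
    rw [Affine.slope_of_Y_ne rfl hy, hp]
  refine ⟨by rw [e]; exact Affine.Point.some_ne_zero _, ?_, ?_⟩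
  · rw [hX, hs]
    rfl
  · rw [hY, hX, Affine.addY, Affine.negAddY, Affine.negY, hs]
    rfl

/-- a point of order at most two -/
theorem dbl_zero {A : W.toAffine.Point} (hA : A ≠ 0) : A + A = 0 ↔ pe A = 0 := by
  constructor
  · intro h
    by_contra hp
    exact (p_dbl hA hp).1 h
  · intro h
    have h1 : A = -A := by
      refine p_ext hA (by rwa [Ne, neg_eq_zero]) (px_neg A).symm ?_
      rw [py_neg hA]
      unfold pe at h
      linear_combination h
    nth_rewrite 2 [h1]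
    exact add_neg_cancel A

/-- the difference of the abscissae of `A + B` and `A` -/
theorem px_add_sub {A B : W.toAffine.Point} (hA : A ≠ 0) (hB : B ≠ 0) (h : px A ≠ px B) :
    (px (A + B) - px A) * (px A - px B) ^ 2 = -(pe A * py B) +
      px B * (3 * px A ^ 2 + 2 * W.a₂ * px A + W.a₄ - W.a₁ * py A) +
      (-px A ^ 3 + W.a₄ * px A + 2 * W.a₆ - W.a₃ * py A) := by
  have h1 := px_add hA hB h
  unfold pe
  linear_combination h1

end

end

end Pool.Agent.Lib.MP_1a91b9_nuX.GM
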