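import Pool.Agent.Lib.MP_1a91b9_nuX.GM.Form
import Pool.Agent.Lib.MP_1a91b9_nuX.GM.VExt

/-!
# Good models over an algebraically closed field
-/

set_option autoImplicit false

namespace Pool.Agent.Lib.MP_1a91b9_nuX.GM

open WeierstrassCurve Polynomial

noncomputable section

section
variable {F : Type*} [Field F] {Γ : Type*} [LinearOrderedCommGroupWithZero Γ]
  {v : Valuation F Γ} {W : WeierstrassCurve F}

/-- a root of a quadratic polynomial -/
theorem root_quad [IsAlgClosed F] {a : F} (ha : a ≠ 0) (b c : F) :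
    ∃ x : F, a * x ^ 2 + b * x + c = 0 := by
  obtain ⟨x, hx⟩ := IsAlgClosed.exists_root (C a * X ^ 2 + C b * X + C c : F[X])
    (by rw [degree_quadratic ha]; norm_num)
  refine ⟨x, ?_⟩
  rw [IsRoot.def] at hx
  simpa using hx

theorem root_cubic [IsAlgClosed F] {a : F} (ha : a ≠ 0) (b c d : F) :
    ∃ x : F, a * x ^ 3 + b * x ^ 2 + c * x + d = 0 := by
  obtain ⟨x, hx⟩ := IsAlgClosed.exists_root (C a * X ^ 3 + C b * X ^ 2 + C c * X + C d : F[X])
    (by rw [degree_cubic ha]; norm_num)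
  refine ⟨x, ?_⟩
  rw [IsRoot.def] at hx
  simpa using hx

theorem root_quart [IsAlgClosed F] {a : F} (ha : a ≠ 0) (b c d e : F) :
    ∃ x : F, a * x ^ 4 + b * x ^ 3 + c * x ^ 2 + d * x + e = 0 := by
  have h4 : (C a * X ^ 4 + C b * X ^ 3 + C c * X ^ 2 + C d * X + C e : F[X]).natDegree = 4 := by
    compute_degree!
  obtain ⟨x, hx⟩ := IsAlgClosed.exists_root
    (C a * X ^ 4 + C b * X ^ 3 + C c * X ^ 2 + C d * X + C e : F[X]) (by
      intro h
      rw [natDegree_eq_of_degree_eq_some h] at h4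
      norm_num at h4)
  refine ⟨x, ?_⟩
  rw [IsRoot.def] at hx
  simpa using hx

/-- the point with given coordinates -/
theorem exists_pt (hW : W.Δ ≠ 0) {x y : F} (h : y ^ 2 + W.a₁ * x * y + W.a₃ * y =
    x ^ 3 + W.a₂ * x ^ 2 + W.a₄ * x + W.a₆) :
    ∃ P : W.toAffine.Point, P ≠ 0 ∧ px P = x ∧ py P = y := by
  refine ⟨Affine.Point.some x y ((Affine.equation_iff_nonsingular_of_Δ_ne_zero hW).1
    ((Affine.equation_iff _ _).2 h)), Affine.Point.some_ne_zero _, rfl, rfl⟩

theorem exists_pt_x [IsAlgClosed F] (hW : W.Δ ≠ 0) (x : F) :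
    ∃ P : W.toAffine.Point, P ≠ 0 ∧ px P = x := by
  obtain ⟨y, hy⟩ := root_quad (one_ne_zero (α := F)) (W.a₁ * x + W.a₃)
    (-(x ^ 3 + W.a₂ * x ^ 2 + W.a₄ * x + W.a₆))
  obtain ⟨P, h0, h1, -⟩ := exists_pt hW (x := x) (y := y) (by linear_combination hy)
  exact ⟨P, h0, h1⟩

/-- the points are nonsingular -/
theorem der_ne {P : W.toAffine.Point} (hP : P ≠ 0) (h : pe P = 0) :
    3 * px P ^ 2 + 2 * W.a₂ * px P + W.a₄ - W.a₁ * py P ≠ 0 := by
  rcases P with _ | ⟨x, y, hp⟩
  · exact absurd rfl hP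
  · rcases ((Affine.nonsingular_iff' _ _).1 hp).2 with h1 | h1
    · intro h2
      apply h1
      have h3 : 3 * x ^ 2 + 2 * W.a₂ * x + W.a₄ - W.a₁ * y = 0 := h2
      linear_combination -h3
    · exact absurd h h1

/-- **Potential good reduction.** -/
theorem exists_good [IsAlgClosed F] (h20 : (2 : F) ≠ 0) (h30 : (3 : F) ≠ 0) (hW : W.Δ ≠ 0)
    (hj : v (W.c₄ ^ 3) ≤ v W.Δ) : ∃ C : VariableChange F, GoodW v (C • W) := by
  rcases (v_three_le (v := v)).lt_or_eq with h3 | h3
  · -- `v 2 = 1`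
    have h2 : v 2 = 1 := by
      refine le_antisymm v_two_le (not_lt.1 fun h => ?_)
      have h1 : v (3 - 2 : F) < 1 := v.map_sub_lt h3 h
      rw [show (3 - 2 : F) = 1 by ring, map_one] at h1
      exact lt_irrefl _ h1
    have h40 : (4 : F) ≠ 0 := by
      have : (4 : F) = 2 * 2 := by norm_num
      rw [this]
      exact mul_ne_zero h20 h20
    obtain ⟨r, hr⟩ := root_cubic h40 W.b₂ (2 * W.b₄) W.b₆
    obtain ⟨P, hP0, hPr⟩ := exists_pt_x hW r
    have hPe : pe P = 0 := by
      have h1 := pe_sq hP0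
      rw [hPr, hr] at h1
      exact pow_eq_zero_iff (by norm_num) |>.1 h1
    obtain ⟨x, hx⟩ := root_quad h40 (W.b₂ + 4 * r) (2 * W.b₄ + W.b₂ * r + 4 * r ^ 2)
    have hxr : x ≠ px P := by
      rw [hPr]
      intro h
      rw [h] at hx
      have h1 := der_ne hP0 hPe
      rw [hPr] at h1
      have h2 : 4 * (3 * r ^ 2 + 2 * W.a₂ * r + W.a₄ - W.a₁ * py P) = 0 := by
        unfold pe at hPe
        rw [hPr] at hPe
        unfold WeierstrassCurve.b₂ WeierstrassCurve.b₄ at hx
        linear_combination hx - 2 * W.a₁ * hPe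
      exact h1 ((mul_eq_zero.1 h2).resolve_left h40)
    obtain ⟨d, hd⟩ := root_quad (one_ne_zero (α := F)) 0 (-(px P - x))
    refine legendre h20 hj h2 hP0 hPe hxr (x := x) ?_ (d := d) (by linear_combination hd)
    linear_combination (x - r) * hx + hr
  · obtain ⟨r, hr⟩ := root_quart h30 W.b₂ (3 * W.b₄) (3 * W.b₆) W.b₈
    obtain ⟨P, hP0, hPr⟩ := exists_pt_x hW r
    have e := p_eq hP0
    have hPe : pe P ≠ 0 := by
      intro h
      have h1 := der_ne hP0 h
      have h2 : (3 * px P ^ 2 + 2 * W.a₂ * px P + W.a₄ - W.a₁ * py P) ^ 2 = 0 := by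
        rw [hPr] at e ⊢
        unfold pe at h
        rw [hPr] at h
        unfold WeierstrassCurve.b₂ WeierstrassCurve.b₄ WeierstrassCurve.b₆
          WeierstrassCurve.b₈ at hr
        linear_combination (-W.a₁ ^ 2 - 4 * W.a₂ - 12 * r) * e - hr +
          (-W.a₁ * (3 * r ^ 2 + 2 * W.a₂ * r + W.a₄ - W.a₁ * py P) +
            (W.a₂ + 3 * r) * (2 * py P + W.a₁ * r + W.a₃)) * h
      exact h1 (pow_eq_zero_iff (by norm_num) |>.1 h2)
    obtain ⟨x, hx⟩ := root_cubic h30 (W.b₂ + 3 * r) (3 * W.b₄ + r * W.b₂ + 3 * r ^ 2)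
      (3 * W.b₆ + 3 * r * W.b₄ + r ^ 2 * W.b₂ + 3 * r ^ 3)
    have hxr : x ≠ px P := by
      rw [hPr]
      intro h
      rw [h] at hx
      have h1 := pe_sq hP0
      rw [hPr] at h1
      have h2 : 3 * pe P ^ 2 = 0 := by
        rw [h1]
        linear_combination hx
      rcases mul_eq_zero.1 h2 with h3 | h3
      · exact h30 h3
      · exact hPe (pow_eq_zero_iff (by norm_num) |>.1 h3)
    refine deuring hW hj h3 hP0 hPe (by rw [hPr]; linear_combination hr) hxr (x := x) ?_
    linear_combination (x - r) * hx + hr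

/-- a point which is not of order two modulo `v` -/
theorem exists_unit_pt [IsAlgClosed F] (hW : GoodW v W) :
    ∃ S : W.toAffine.Point, ¬ Kr v S ∧ v (pe S) = 1 := by
  have hΔ : W.Δ ≠ 0 := by
    intro h
    have h1 := hW.disc
    rw [h, map_zero] at h1
    exact zero_ne_one h1
  have fin : ∀ x : F, v x ≤ 1 → v (4 * x ^ 3 + W.b₂ * x ^ 2 + 2 * W.b₄ * x + W.b₆) = 1 →
      ∃ S : W.toAffine.Point, ¬ Kr v S ∧ v (pe S) = 1 := by
    intro x hx h
    obtain ⟨P, hP0, hPx⟩ := exists_pt_x hΔ x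
    refine ⟨P, ?_, ?_⟩
    · rintro (h1 | h1)
      · exact hP0 h1
      · rw [hPx] at h1
        exact absurd hx (not_le.2 h1)
    · have h1 := pe_sq hP0
      rw [hPx] at h1
      rw [← h1, map_pow] at h
      exact v_pow_inj (n := 2) (by norm_num) (by rw [h, one_pow])
  have t2 : v (2 : F) ≤ 1 := v_two_le
  have b2 : v W.b₂ ≤ 1 := by
    unfold WeierstrassCurve.b₂
    have : W.a₁ ^ 2 + 4 * W.a₂ = W.a₁ ^ 2 + 2 * (2 * W.a₂) := by ring
    rw [this]
    exact v.map_add_le (pow_le hW.a1 2) (mul_le t2 (mul_le t2 hW.a2))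
  have b4 : v W.b₄ ≤ 1 := by
    unfold WeierstrassCurve.b₄
    exact v.map_add_le (mul_le t2 hW.a4) (mul_le hW.a1 hW.a3)
  have b6 : v W.b₆ ≤ 1 := by
    unfold WeierstrassCurve.b₆
    have : W.a₃ ^ 2 + 4 * W.a₆ = W.a₃ ^ 2 + 2 * (2 * W.a₆) := by ring
    rw [this]
    exact v.map_add_le (pow_le hW.a3 2) (mul_le t2 (mul_le t2 hW.a6))
  rcases (v_two_le (v := v)).lt_or_eq with h2 | h2
  · -- residue characteristic two
    have h4 : v (4 : F) < 1 := by
      have : (4 : F) = 2 * 2 := by norm_num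
      rw [this, map_mul]
      exact mul_lt_one_of_lt_of_le h2 h2.le
    by_cases h3 : v W.a₃ = 1
    · refine fin 0 (by rw [map_zero]; exact zero_le') ?_
      have e : 4 * (0 : F) ^ 3 + W.b₂ * 0 ^ 2 + 2 * W.b₄ * 0 + W.b₆ = W.a₃ ^ 2 + 4 * W.a₆ := by
        unfold WeierstrassCurve.b₆
        ring
      rw [e, Valuation.map_add_eq_of_lt_left v, map_pow, h3, one_pow]
      rw [map_pow, h3, one_pow, map_mul]
      exact mul_lt_one_of_lt_of_le h4 hW.a6
    · have h3' : v W.a₃ < 1 := lt_of_le_of_ne hW.a3 h3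
      have h1 : v W.a₁ = 1 := by
        refine le_antisymm hW.a1 (not_lt.1 fun h1 => ?_)
        have c2 : v W.b₂ < 1 := by
          unfold WeierstrassCurve.b₂
          refine v.map_add_lt ?_ ?_
          · rw [sq, map_mul]
            exact mul_lt_one_of_lt_of_le h1 h1.le
          · rw [map_mul]
            exact mul_lt_one_of_lt_of_le h4 hW.a2
        have c4 : v W.b₄ < 1 := by
          unfold WeierstrassCurve.b₄
          refine v.map_add_lt ?_ ?_
          · rw [map_mul]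
            exact mul_lt_one_of_lt_of_le h2 hW.a4
          · rw [map_mul]
            exact mul_lt_one_of_lt_of_le h1 h3'.le
        have c6 : v W.b₆ < 1 := by
          unfold WeierstrassCurve.b₆
          refine v.map_add_lt ?_ ?_
          · rw [sq, map_mul]
            exact mul_lt_one_of_lt_of_le h3' h3'.le
          · rw [map_mul]
            exact mul_lt_one_of_lt_of_le h4 hW.a6
        have c8 : v W.b₈ ≤ 1 := by
          unfold WeierstrassCurve.b₈
          have : W.a₁ ^ 2 * W.a₆ + 4 * W.a₂ * W.a₆ - W.a₁ * W.a₃ * W.a₄ + W.a₂ * W.a₃ ^ 2 -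
              W.a₄ ^ 2 = W.a₁ ^ 2 * W.a₆ + (4 * W.a₂) * W.a₆ - (W.a₁ * W.a₃) * W.a₄ +
                W.a₂ * W.a₃ ^ 2 - W.a₄ ^ 2 := by ring
          rw [this]
          exact v.map_sub_le (v.map_add_le (v.map_sub_le (v.map_add_le (mul_le (pow_le hW.a1 2)
            hW.a6) (mul_le (mul_le h4.le hW.a2) hW.a6)) (mul_le (mul_le hW.a1 hW.a3) hW.a4))
            (mul_le hW.a2 (pow_le hW.a3 2))) (pow_le hW.a4 2)
        have c8' : v (8 : F) ≤ 1 := by
          have : (8 : F) = 2 ^ 3 := by norm_num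
          rw [this]
          exact pow_le t2 3
        have c27 : v (27 : F) ≤ 1 := by
          have : (27 : F) = 3 ^ 3 := by norm_num
          rw [this]
          exact pow_le v_three_le 3
        have c9 : v (9 : F) ≤ 1 := by
          have : (9 : F) = 3 ^ 2 := by norm_num
          rw [this]
          exact pow_le v_three_le 2
        have hD : v W.Δ < 1 := by
          have e1 : W.Δ = -W.b₂ * (W.b₂ * W.b₈) - W.b₄ * (8 * W.b₄ ^ 2) -
              W.b₆ * (27 * W.b₆) + W.b₂ * (9 * (W.b₄ * W.b₆)) := by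
            unfold WeierstrassCurve.Δ
            ring
          rw [e1]
          refine v.map_add_lt (v.map_sub_lt (v.map_sub_lt ?_ ?_) ?_) ?_
          · rw [map_mul, Valuation.map_neg]
            exact mul_lt_one_of_lt_of_le c2 (mul_le b2 c8)
          · rw [map_mul]
            exact mul_lt_one_of_lt_of_le c4 (mul_le c8' (pow_le b4 2))
          · rw [map_mul]
            exact mul_lt_one_of_lt_of_le c6 (mul_le c27 b6)
          · rw [map_mul]
            exact mul_lt_one_of_lt_of_le c2 (mul_le c9 (mul_le b4 b6))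
        rw [hW.disc] at hD
        exact lt_irrefl _ hD
      refine fin 1 (by rw [map_one]) ?_
      have e : 4 * (1 : F) ^ 3 + W.b₂ * 1 ^ 2 + 2 * W.b₄ * 1 + W.b₆ =
          W.a₁ ^ 2 + (4 * (1 + W.a₂ + W.a₄ + W.a₆) + W.a₃ * (2 * W.a₁ + W.a₃)) := by
        unfold WeierstrassCurve.b₂ WeierstrassCurve.b₄ WeierstrassCurve.b₆
        ring
      have h5 : v (4 * (1 + W.a₂ + W.a₄ + W.a₆) + W.a₃ * (2 * W.a₁ + W.a₃)) < 1 := by
        refine v.map_add_lt ?_ ?_
        · rw [map_mul]
          exact mul_lt_one_of_lt_of_le h4 (v.map_add_le (v.map_add_le (v.map_add_le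
            (by rw [map_one]) hW.a2) hW.a4) hW.a6)
        · rw [map_mul]
          exact mul_lt_one_of_lt_of_le h3' (v.map_add_le (mul_le t2 hW.a1) hW.a3)
      rw [e, Valuation.map_add_eq_of_lt_left v, map_pow, h1, one_pow]
      rw [map_pow, h1, one_pow]
      exact h5
  · -- the residue characteristic is not two
    have h40 : (4 : F) ≠ 0 := by
      intro h
      have h1 : v (4 : F) = 1 := by
        have : (4 : F) = 2 * 2 := by norm_num
        rw [this, map_mul, h2, one_mul]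
      rw [h, map_zero] at h1
      exact zero_ne_one h1
    obtain ⟨x, hx⟩ := root_cubic h40 W.b₂ (2 * W.b₄) (W.b₆ - 1)
    have hx1 : 4 * x ^ 3 + W.b₂ * x ^ 2 + 2 * W.b₄ * x + W.b₆ = 1 := by linear_combination hx
    refine fin x ?_ (by rw [hx1, map_one])
    by_contra h
    rw [not_le] at h
    have h4 : v (4 : F) = 1 := by
      have : (4 : F) = 2 * 2 := by norm_num
      rw [this, map_mul, h2, one_mul]
    have e1 : 4 * x ^ 3 = 1 - (W.b₂ * x ^ 2 + (2 * W.b₄) * x + W.b₆) := by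
      linear_combination hx1
    have h5 : v (1 - (W.b₂ * x ^ 2 + (2 * W.b₄) * x + W.b₆)) ≤ v x ^ 2 := by
      have h6 : (1 : Γ) ≤ v x ^ 2 := one_le_pow₀ h.le
      refine v.map_sub_le (by rw [map_one]; exact h6) (v.map_add_le (v.map_add_le ?_ ?_)
        (b6.trans h6))
      · rw [map_mul, map_pow]
        exact mul_le_of_le_one_left' b2
      · rw [map_mul]
        exact (mul_le_of_le_one_left' (mul_le t2 b4)).trans (le_self_pow₀ h.le two_ne_zero)
    rw [← e1, map_mul, h4, one_mul, map_pow] at h5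
    exact absurd h5 (not_le.2 (pow_lt_pow_right₀ h (by norm_num)))

end

end

end Pool.Agent.Lib.MP_1a91b9_nuX.GM
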