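import Pool.Agent.Lib.MP_1a91b9_nuX.GM.Sep
import Pool.Agent.Lib.MP_1a91b9_nuX.GM.Plc

/-!
# The criterion of Néron, Ogg and Shafarevich: descent of a good model

A curve over `k` which has a good model at `w` over a Galois extension `M` of `k`, whose change of
variables is fixed by the inertia at `w`, has a good model over `k`.
-/

set_option autoImplicit false

namespace Pool.Agent.Lib.MP_1a91b9_nuX.GM

open WeierstrassCurve NumberField IsDedekindDomain

noncomputable section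

section
variable {F : Type*} [Field F] {Γ : Type*} [LinearOrderedCommGroupWithZero Γ]
  {v : Valuation F Γ} {W : WeierstrassCurve F}

/-- an integral change of variables -/
theorem good_change (hW : GoodW v W) {C : VariableChange F} (hu : v (C.u : F) = 1)
    (hr : v C.r ≤ 1) (hs : v C.s ≤ 1) (ht : v C.t ≤ 1) : GoodW v (C • W) := by
  have hi : v ((C.u⁻¹ : Fˣ) : F) = 1 := by
    rw [Units.val_inv_eq_inv_val, map_inv₀, hu, inv_one]
  have hn : ∀ n : ℕ, v (((C.u⁻¹ : Fˣ) : F) ^ n) = 1 := fun n => by rw [map_pow, hi, one_pow]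
  have t2 : v (2 : F) ≤ 1 := v_two_le
  have t3 : v (3 : F) ≤ 1 := v_three_le
  have h1 := hW.a1
  have h2 := hW.a2
  have h3 := hW.a3
  have h4 := hW.a4
  have h6 := hW.a6
  refine ⟨⟨?_, ?_, ?_, ?_, ?_⟩, ?_⟩
  · rw [WeierstrassCurve.variableChange_a₁]
    exact mul_le hi.le (v.map_add_le h1 (mul_le t2 hs))
  · rw [WeierstrassCurve.variableChange_a₂]
    exact mul_le (hn 2).le (v.map_sub_le (v.map_add_le (v.map_sub_le h2 (mul_le hs h1))
      (mul_le t3 hr)) (pow_le hs 2))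
  · rw [WeierstrassCurve.variableChange_a₃]
    exact mul_le (hn 3).le (v.map_add_le (v.map_add_le h3 (mul_le hr h1)) (mul_le t2 ht))
  · rw [WeierstrassCurve.variableChange_a₄]
    exact mul_le (hn 4).le (v.map_sub_le (v.map_add_le (v.map_sub_le (v.map_add_le (v.map_sub_le
      h4 (mul_le hs h3)) (mul_le (mul_le t2 hr) h2)) (mul_le (v.map_add_le ht (mul_le hr hs)) h1))
      (mul_le t3 (pow_le hr 2))) (mul_le (mul_le t2 hs) ht))
  · rw [WeierstrassCurve.variableChange_a₆]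
    exact mul_le (hn 6).le (v.map_sub_le (v.map_sub_le (v.map_sub_le (v.map_add_le (v.map_add_le
      (v.map_add_le h6 (mul_le hr h4)) (mul_le (pow_le hr 2) h2)) (pow_le hr 3)) (mul_le ht h3))
      (pow_le ht 2)) (mul_le (mul_le hr ht) h1))
  · rw [WeierstrassCurve.variableChange_Δ, map_mul, hn, one_mul, hW.disc]

/-- **Two integral models with the same discriminant**: the change of variables is integral. -/
theorem int_change (hW : IntW v W) {C : VariableChange F} (hu : C.u = 1)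
    (hC : IntW v (C • W)) : v C.r ≤ 1 ∧ v C.s ≤ 1 ∧ v C.t ≤ 1 := by
  have t2 : v (2 : F) ≤ 1 := v_two_le
  have t3 : v (3 : F) ≤ 1 := v_three_le
  have t4 : v (4 : F) ≤ 1 := by
    have : (4 : F) = 2 * 2 := by norm_num
    rw [this]
    exact mul_le t2 t2
  have b2 : ∀ W : WeierstrassCurve F, IntW v W → v W.b₂ ≤ 1 := by
    intro W hW
    unfold WeierstrassCurve.b₂
    exact v.map_add_le (pow_le hW.a1 2) (mul_le t4 hW.a2)
  have b4 : ∀ W : WeierstrassCurve F, IntW v W → v W.b₄ ≤ 1 := by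
    intro W hW
    unfold WeierstrassCurve.b₄
    exact v.map_add_le (mul_le t2 hW.a4) (mul_le hW.a1 hW.a3)
  have b6 : ∀ W : WeierstrassCurve F, IntW v W → v W.b₆ ≤ 1 := by
    intro W hW
    unfold WeierstrassCurve.b₆
    exact v.map_add_le (pow_le hW.a3 2) (mul_le t4 hW.a6)
  have b8 : ∀ W : WeierstrassCurve F, IntW v W → v W.b₈ ≤ 1 := by
    intro W hW
    unfold WeierstrassCurve.b₈
    exact v.map_sub_le (v.map_add_le (v.map_sub_le (v.map_add_le (mul_le (pow_le hW.a1 2)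
            hW.a6) (mul_le (mul_le t4 hW.a2) hW.a6)) (mul_le (mul_le hW.a1 hW.a3) hW.a4))
            (mul_le hW.a2 (pow_le hW.a3 2))) (pow_le hW.a4 2)
  have e6 : (C • W).b₆ = W.b₆ + 2 * C.r * W.b₄ + C.r ^ 2 * W.b₂ + 4 * C.r ^ 3 := by
    rw [WeierstrassCurve.variableChange_b₆, hu]
    simp
  have e8 : (C • W).b₈ =
      W.b₈ + 3 * C.r * W.b₆ + 3 * C.r ^ 2 * W.b₄ + C.r ^ 3 * W.b₂ + 3 * C.r ^ 4 := by
    rw [WeierstrassCurve.variableChange_b₈, hu]
    simp
  have hr : v C.r ≤ 1 := by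
    by_contra h
    rw [not_le] at h
    obtain ⟨R, hR⟩ : ∃ R, R = v C.r := ⟨_, rfl⟩
    rw [← hR] at h
    have hR0 : 0 < R := zero_lt_one.trans h
    have p1 : ∀ n : ℕ, (1 : Γ) ≤ R ^ n := fun n => one_le_pow₀ h.le
    have q1 : ∀ n m : ℕ, n ≤ m → R ^ n ≤ R ^ m := fun n m hnm => pow_le_pow_right₀ h.le hnm
    have h6 : v (4 : F) * R ^ 3 ≤ R ^ 2 := by
      have e : (4 : F) * C.r ^ 3 = (C • W).b₆ - (W.b₆ + (2 * W.b₄) * C.r + W.b₂ * C.r ^ 2) := by
        rw [e6]
        ring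
      rw [hR, ← map_pow v C.r 3, ← map_mul, e, ← hR]
      refine v.map_sub_le ((b6 _ hC).trans (p1 2)) (v.map_add_le (v.map_add_le
        ((b6 _ hW).trans (p1 2)) ?_) ?_)
      · rw [map_mul, ← hR]
        refine (mul_le_of_le_one_left' (mul_le t2 (b4 _ hW))).trans ?_
        have := q1 1 2 (by norm_num)
        rwa [pow_one] at this
      · rw [map_mul, map_pow, ← hR]
        exact mul_le_of_le_one_left' (b2 _ hW)
    have h8 : v (3 : F) * R ^ 4 ≤ R ^ 3 := by
      have e : (3 : F) * C.r ^ 4 = (C • W).b₈ - (W.b₈ + (3 * W.b₆) * C.r +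
          (3 * W.b₄) * C.r ^ 2 + W.b₂ * C.r ^ 3) := by
        rw [e8]
        ring
      rw [hR, ← map_pow v C.r 4, ← map_mul, e, ← hR]
      refine v.map_sub_le ((b8 _ hC).trans (p1 3)) (v.map_add_le (v.map_add_le (v.map_add_le
        ((b8 _ hW).trans (p1 3)) ?_) ?_) ?_)
      · rw [map_mul, ← hR]
        refine (mul_le_of_le_one_left' (mul_le t3 (b6 _ hW))).trans ?_
        have := q1 1 3 (by norm_num)
        rwa [pow_one] at this
      · rw [map_mul, map_pow, ← hR]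
        exact (mul_le_of_le_one_left' (mul_le t3 (b4 _ hW))).trans (q1 2 3 (by norm_num))
      · rw [map_mul, map_pow, ← hR]
        exact mul_le_of_le_one_left' (b2 _ hW)
    have k4 : v (4 : F) < 1 := by
      by_contra h1
      rw [not_lt] at h1
      have h2 : R ^ 3 ≤ R ^ 2 := (le_mul_of_one_le_left' h1).trans h6
      exact absurd h2 (not_le.2 (pow_lt_pow_right₀ h (by norm_num)))
    have k3 : v (3 : F) < 1 := by
      by_contra h1
      rw [not_lt] at h1
      have h2 : R ^ 4 ≤ R ^ 3 := (le_mul_of_one_le_left' h1).trans h8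
      exact absurd h2 (not_le.2 (pow_lt_pow_right₀ h (by norm_num)))
    have h1 : v (4 - 3 : F) < 1 := v.map_sub_lt k4 k3
    rw [show (4 - 3 : F) = 1 by ring, map_one] at h1
    exact lt_irrefl _ h1
  have quad : ∀ a b x : F, v a ≤ 1 → v b ≤ 1 → x ^ 2 + a * x = b → v x ≤ 1 := by
    intro a b x ha hb e
    by_contra h
    rw [not_le] at h
    have h1 : v (x ^ 2 + a * x) = v x ^ 2 := by
      rw [Valuation.map_add_eq_of_lt_left v, map_pow]
      rw [map_pow, map_mul, sq]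
      exact lt_of_le_of_lt (mul_le_of_le_one_left' ha) (by
        have := mul_lt_mul_of_pos_left h (zero_lt_one.trans h)
        rwa [mul_one] at this)
    rw [e] at h1
    have h2 : 1 < v x ^ 2 := one_lt_pow₀ h (by norm_num)
    rw [← h1] at h2
    exact absurd hb (not_le.2 h2)
  have hs : v C.s ≤ 1 := by
    refine quad W.a₁ (W.a₂ + 3 * C.r - (C • W).a₂) C.s hW.a1 ?_ ?_
    · exact v.map_sub_le (v.map_add_le hW.a2 (mul_le t3 hr)) hC.a2
    · rw [WeierstrassCurve.variableChange_a₂, hu]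
      simp only [inv_one, Units.val_one, one_pow, one_mul]
      ring
  refine ⟨hr, hs, ?_⟩
  refine quad (W.a₃ + C.r * W.a₁) (W.a₆ + C.r * W.a₄ + C.r ^ 2 * W.a₂ + C.r ^ 3 - (C • W).a₆)
    C.t (v.map_add_le hW.a3 (mul_le hr hW.a1)) ?_ ?_
  · exact v.map_sub_le (v.map_add_le (v.map_add_le (v.map_add_le hW.a6 (mul_le hr hW.a4))
      (mul_le (pow_le hr 2) hW.a2)) (pow_le hr 3)) hC.a6
  · rw [WeierstrassCurve.variableChange_a₆, hu]
    simp only [inv_one, Units.val_one, one_pow, one_mul]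
    ring

end

section
variable {k M : Type*} [Field k] [NumberField k] [Field M] [NumberField M] [Algebra k M]

/-- integrality at the place below -/
theorem val_under (w : HeightOneSpectrum (𝓞 M)) (x : k) :
    w.valuation M (algebraMap k M x) ≤ 1 ↔ (w.under (𝓞 k)).valuation k x ≤ 1 := by
  have hp : w.asIdeal.IsPrime := w.isPrime
  have he : w.asIdeal.ramificationIdx (𝓞 k) ≠ 0 :=
    (Ideal.ramificationIdx_pos w.asIdeal (𝓞 k)).ne'
  rw [val_base]
  exact pow_le_one_iff he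

variable {W : WeierstrassCurve k} {w : HeightOneSpectrum (𝓞 M)}

/-- the conjugate of a change of variables -/
theorem conj_change (σ : Gal(M/k)) (C : VariableChange M) :
    (C • W.map (algebraMap k M)).map (σ : M →+* M) =
      (C.map (σ : M →+* M)) • W.map (algebraMap k M) := by
  rw [← WeierstrassCurve.map_variableChange]
  congr 1
  rw [WeierstrassCurve.map_map]
  congr 1
  ext x
  exact σ.commutes x

/-- the components of a good change of variables are fixed by the automorphisms up to integers -/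
theorem conj_int {σ : Gal(M/k)} (hσ : ∀ x : 𝓞 M, σ • x ∈ w.asIdeal ↔ x ∈ w.asIdeal)
    {r s t : M} (h : IntW (w.valuation M)
      ((⟨1, r, s, t⟩ : VariableChange M) • W.map (algebraMap k M))) :
    w.valuation M (σ r - r) ≤ 1 ∧ w.valuation M (σ s - s) ≤ 1 ∧
      w.valuation M (σ t - t - (σ r - r) * s) ≤ 1 := by
  obtain ⟨C, hC⟩ : ∃ C : VariableChange M, C = ⟨1, r, s, t⟩ := ⟨_, rfl⟩
  obtain ⟨D, hD⟩ : ∃ D : VariableChange M,
    D = ⟨1, σ r - r, σ s - s, σ t - t - (σ r - r) * s⟩ := ⟨_, rfl⟩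
  have e1 : D * C = C.map (σ : M →+* M) := by
    rw [hC, hD, WeierstrassCurve.VariableChange.mul_def, WeierstrassCurve.VariableChange.map]
    ext
    · simp
    · simp
    · simp
    · simp
  rw [← hC] at h
  have h2 : IntW (w.valuation M) (D • (C • W.map (algebraMap k M))) := by
    rw [← mul_smul, e1, ← conj_change]
    have hv := val_gal hσ
    refine ⟨?_, ?_, ?_, ?_, ?_⟩
    · exact (hv _).le.trans h.a1
    · exact (hv _).le.trans h.a2
    · exact (hv _).le.trans h.a3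
    · exact (hv _).le.trans h.a4
    · exact (hv _).le.trans h.a6
  have h3 := int_change h (C := D) (by rw [hD]) h2
  rw [hD] at h3
  exact h3

variable [IsGalois k M]

/-- **Descent of a good model.** -/
theorem desc_good {u r s t : M} (hu : u ≠ 0)
    (hI : ∀ σ : Gal(M/k), (∀ y : 𝓞 M, σ • y - y ∈ w.asIdeal) →
      σ u = u ∧ σ r = r ∧ σ s = s ∧ σ t = t)
    (h : GoodW (w.valuation M)
      ((⟨Units.mk0 u hu, r, s, t⟩ : VariableChange M) • W.map (algebraMap k M))) :
    ∃ C : VariableChange k, GoodW ((w.under (𝓞 k)).valuation k) (C • W) := by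
  obtain ⟨φ, hφ⟩ := exists_frob (k := k) w
  have hq0 : Nat.card (𝓞 k ⧸ (w.under (𝓞 k)).asIdeal) ≠ 0 := by
    have hfin : Finite (𝓞 k ⧸ (w.under (𝓞 k)).asIdeal) :=
      Ideal.finiteQuotientOfFreeOfNeBot _ (w.under (𝓞 k)).ne_bot
    exact Nat.card_pos.ne'
  have hφm := frob_mem hq0 hφ
  -- the scaling
  obtain ⟨y, hy⟩ := val_inert (w := w) (fun σ hσ => (hI σ hσ).1)
  have hvu : w.valuation M u ≠ 0 := (Valuation.ne_zero_iff _).2 hu
  have hy0 : algebraMap k M y ≠ 0 := by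
    intro h0
    rw [h0, map_zero] at hy
    exact hvu hy.symm
  have hy0' : y ≠ 0 := by
    rintro rfl
    exact hy0 (map_zero _)
  obtain ⟨Y, hY⟩ : ∃ Y, Y = algebraMap k M y := ⟨_, rfl⟩
  rw [← hY] at hy hy0
  obtain ⟨W₁, hW₁⟩ : ∃ W₁ : WeierstrassCurve k,
    W₁ = (⟨Units.mk0 y hy0', 0, 0, 0⟩ : VariableChange k) • W := ⟨_, rfl⟩
  have hW₁M : W₁.map (algebraMap k M) =
      (⟨Units.mk0 Y hy0, 0, 0, 0⟩ : VariableChange M) • W.map (algebraMap k M) := by
    rw [hW₁, ← WeierstrassCurve.map_variableChange]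
    congr 1
    ext
    · exact hY.symm
    · exact map_zero _
    · exact map_zero _
    · exact map_zero _
  have h1 : GoodW (w.valuation M)
      ((⟨1, r / Y ^ 2, s / Y, t / Y ^ 3⟩ : VariableChange M) • W₁.map (algebraMap k M)) := by
    have e1 : (⟨1, r / Y ^ 2, s / Y, t / Y ^ 3⟩ : VariableChange M) *
        ⟨Units.mk0 Y hy0, 0, 0, 0⟩ = ⟨Units.mk0 (Y / u) (div_ne_zero hy0 hu), 0, 0, 0⟩ *
          ⟨Units.mk0 u hu, r, s, t⟩ := by
      rw [WeierstrassCurve.VariableChange.mul_def, WeierstrassCurve.VariableChange.mul_def]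
      ext
      · simp only [Units.val_mul, Units.val_one, Units.val_mk0]
        field_simp
      · simp only [Units.val_mk0]
        field_simp
        ring
      · simp only [Units.val_mk0]
        field_simp
        ring
      · simp only [Units.val_mk0]
        field_simp
        ring
    rw [hW₁M, ← mul_smul, e1, mul_smul]
    refine good_change h ?_ ?_ ?_ ?_
    · change w.valuation M (Y / u) = 1
      rw [map_div₀, hy, div_self hvu]
    · exact (map_zero _).le.trans zero_le_one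
    · exact (map_zero _).le.trans zero_le_one
    · exact (map_zero _).le.trans zero_le_one
  -- the components are fixed by the inertia
  obtain ⟨r₁, hr₁⟩ : ∃ r₁, r₁ = r / Y ^ 2 := ⟨_, rfl⟩
  obtain ⟨s₁, hs₁⟩ : ∃ s₁, s₁ = s / Y := ⟨_, rfl⟩
  obtain ⟨t₁, ht₁⟩ : ∃ t₁, t₁ = t / Y ^ 3 := ⟨_, rfl⟩
  rw [← hr₁, ← hs₁, ← ht₁] at h1
  have hYσ : ∀ σ : Gal(M/k), σ Y = Y := fun σ => by rw [hY, AlgEquiv.commutes]
  have hIr : ∀ σ : Gal(M/k), (∀ y : 𝓞 M, σ • y - y ∈ w.asIdeal) → σ r₁ = r₁ := by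
    intro σ hσ
    rw [hr₁, map_div₀, map_pow, hYσ, (hI σ hσ).2.1]
  have hIs : ∀ σ : Gal(M/k), (∀ y : 𝓞 M, σ • y - y ∈ w.asIdeal) → σ s₁ = s₁ := by
    intro σ hσ
    rw [hs₁, map_div₀, hYσ, (hI σ hσ).2.2.1]
  have hIt : ∀ σ : Gal(M/k), (∀ y : 𝓞 M, σ • y - y ∈ w.asIdeal) → σ t₁ = t₁ := by
    intro σ hσ
    rw [ht₁, map_div₀, map_pow, hYσ, (hI σ hσ).2.2.2]
  have shift : ∀ r s t r' s' t' : M, w.valuation M (r' - r) ≤ 1 → w.valuation M (s' - s) ≤ 1 →
      w.valuation M (t' - t - (r' - r) * s) ≤ 1 → GoodW (w.valuation M)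
        ((⟨1, r, s, t⟩ : VariableChange M) • W₁.map (algebraMap k M)) →
      GoodW (w.valuation M)
        ((⟨1, r', s', t'⟩ : VariableChange M) • W₁.map (algebraMap k M)) := by
    intro r s t r' s' t' hr hs ht h
    have e1 : (⟨1, r', s', t'⟩ : VariableChange M) =
        ⟨1, r' - r, s' - s, t' - t - (r' - r) * s⟩ * ⟨1, r, s, t⟩ := by
      rw [WeierstrassCurve.VariableChange.mul_def]
      ext
      · simp
      · simp
      · simp
      · simp
    rw [e1, mul_smul]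
    exact good_change h (by simp) hr hs ht
  -- `r`
  obtain ⟨r₀, hr₀⟩ := desc hφ hIr (conj_int hφm h1.toIntW).1
  obtain ⟨R, hR⟩ : ∃ R, R = algebraMap k M r₀ := ⟨_, rfl⟩
  rw [← hR, Valuation.map_sub_swap] at hr₀
  have hRσ : ∀ σ : Gal(M/k), σ R = R := fun σ => by rw [hR, AlgEquiv.commutes]
  have h2 := shift r₁ s₁ t₁ R s₁ (t₁ + (R - r₁) * s₁) hr₀ (by rw [sub_self, map_zero]; exact zero_le_one)
    (by
      have e : t₁ + (R - r₁) * s₁ - t₁ - (R - r₁) * s₁ = 0 := by ring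
      rw [e, map_zero]
      exact zero_le_one) h1
  obtain ⟨t₂, ht₂⟩ : ∃ t₂, t₂ = t₁ + (R - r₁) * s₁ := ⟨_, rfl⟩
  rw [← ht₂] at h2
  have hIt₂ : ∀ σ : Gal(M/k), (∀ y : 𝓞 M, σ • y - y ∈ w.asIdeal) → σ t₂ = t₂ := by
    intro σ hσ
    rw [ht₂, map_add, map_mul, map_sub, hRσ, hIr σ hσ, hIs σ hσ, hIt σ hσ]
  -- `s`
  obtain ⟨s₀, hs₀⟩ := desc hφ hIs (conj_int hφm h2.toIntW).2.1
  obtain ⟨S, hS⟩ : ∃ S, S = algebraMap k M s₀ := ⟨_, rfl⟩
  rw [← hS, Valuation.map_sub_swap] at hs₀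
  have h3 := shift R s₁ t₂ R S t₂ (by rw [sub_self, map_zero]; exact zero_le_one) hs₀
    (by
      have e : t₂ - t₂ - (R - R) * s₁ = 0 := by ring
      rw [e, map_zero]
      exact zero_le_one) h2
  -- `t`
  obtain ⟨t₀, ht₀⟩ := desc hφ hIt₂ (by
    have h4 := (conj_int hφm h3.toIntW).2.2
    rwa [hRσ, sub_self, zero_mul, sub_zero] at h4)
  obtain ⟨T, hT⟩ : ∃ T, T = algebraMap k M t₀ := ⟨_, rfl⟩
  rw [← hT, Valuation.map_sub_swap] at ht₀
  have h4 := shift R S t₂ R S T (by rw [sub_self, map_zero]; exact zero_le_one)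
    (by rw [sub_self, map_zero]; exact zero_le_one)
    (by
      have e : T - t₂ - (R - R) * S = T - t₂ := by ring
      rwa [e]) h3
  -- the model over `k`
  have e5 : (⟨1, R, S, T⟩ : VariableChange M) • W₁.map (algebraMap k M) =
      ((⟨1, r₀, s₀, t₀⟩ : VariableChange k) • W₁).map (algebraMap k M) := by
    rw [← WeierstrassCurve.map_variableChange]
    congr 1
    ext
    · simp
    · exact hR
    · exact hS
    · exact hT
  rw [e5] at h4
  refine ⟨⟨1, r₀, s₀, t₀⟩ * ⟨Units.mk0 y hy0', 0, 0, 0⟩, ?_⟩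
  rw [mul_smul, ← hW₁]
  refine ⟨⟨(val_under w _).1 h4.a1, (val_under w _).1 h4.a2, (val_under w _).1 h4.a3,
    (val_under w _).1 h4.a4, (val_under w _).1 h4.a6⟩, ?_⟩
  have h5 := h4.disc
  rw [WeierstrassCurve.map_Δ] at h5
  exact (val_ext_eq _ _ (val_under w) _).1 h5

end

end

end Pool.Agent.Lib.MP_1a91b9_nuX.GM
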