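import Pool.Agent.Lib.MP_1a91b9_nuX.GM.Add

/-!
# The kernel of reduction of a Weierstrass curve with integral coefficients and unit discriminant

`Kr v` is the set of the points `0` and of the points with `1 < v x`. It is a subgroup; addition of
a point of `Kr v` does not change the reduction.
-/

set_option autoImplicit false

namespace Pool.Agent.Lib.MP_1a91b9_nuX.GM

open WeierstrassCurve

noncomputable section

section
variable {F : Type*} [Field F] [DecidableEq F] {Γ : Type*} [LinearOrderedCommGroupWithZero Γ]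
  (v : Valuation F Γ) {W : WeierstrassCurve F}

/-- integral coefficients -/
structure IntW (W : WeierstrassCurve F) : Prop where
  a1 : v W.a₁ ≤ 1
  a2 : v W.a₂ ≤ 1
  a3 : v W.a₃ ≤ 1
  a4 : v W.a₄ ≤ 1
  a6 : v W.a₆ ≤ 1

/-- the kernel of reduction -/
def Kr (P : W.toAffine.Point) : Prop := P = 0 ∨ 1 < v (px P)

variable {v}

omit [DecidableEq F] in
theorem v_two_le : v (2 : F) ≤ 1 := by
  have h : v (1 + 1 : F) ≤ 1 := v.map_add_le (by rw [map_one]) (by rw [map_one])
  rwa [one_add_one_eq_two] at h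

omit [DecidableEq F] in
theorem v_three_le : v (3 : F) ≤ 1 := by
  have h : v (2 + 1 : F) ≤ 1 := v.map_add_le v_two_le (by rw [map_one])
  rwa [two_add_one_eq_three] at h

omit [DecidableEq F] in
theorem mul_le {a b : F} (ha : v a ≤ 1) (hb : v b ≤ 1) : v (a * b) ≤ 1 := by
  rw [map_mul]
  exact mul_le_one' ha hb

omit [DecidableEq F] in
theorem pow_le {a : F} (ha : v a ≤ 1) (n : ℕ) : v (a ^ n) ≤ 1 := by
  rw [map_pow]
  exact pow_le_one' ha n

omit [DecidableEq F] in
theorem not_kr {P : W.toAffine.Point} (h : ¬ Kr v P) : P ≠ 0 ∧ v (px P) ≤ 1 := by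
  unfold Kr at h
  rw [not_or, not_lt] at h
  exact h

omit [DecidableEq F] in
theorem kr_zero : Kr v (0 : W.toAffine.Point) := Or.inl rfl

omit [DecidableEq F] in
theorem kr_neg {P : W.toAffine.Point} : Kr v (-P) ↔ Kr v P := by
  unfold Kr
  rw [px_neg]
  rcases P with _ | ⟨x, y, h⟩
  · exact Iff.rfl
  · exact or_congr ⟨fun h1 => absurd h1 (Affine.Point.some_ne_zero _),
      fun h1 => absurd h1 (Affine.Point.some_ne_zero _)⟩ Iff.rfl

omit [DecidableEq F] in
/-- the ordinate of a point with integral abscissa is integral -/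
theorem py_le (hW : IntW v W) {P : W.toAffine.Point} (h : ¬ Kr v P) : v (py P) ≤ 1 := by
  obtain ⟨h0, hx⟩ := not_kr h
  by_contra hy
  rw [not_le] at hy
  have e := p_eq h0
  have h1 : v (py P ^ 2) ≤ max (v (py P)) 1 := by
    have e1 : py P ^ 2 = (px P ^ 3 + W.a₂ * px P ^ 2 + W.a₄ * px P + W.a₆) -
        (W.a₁ * px P + W.a₃) * py P := by linear_combination e
    rw [e1]
    refine (v.map_sub _ _).trans (max_le ?_ ?_)
    · refine le_max_of_le_right ?_
      exact v.map_add_le (v.map_add_le (v.map_add_le (pow_le hx 3) (mul_le hW.a2 (pow_le hx 2)))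
        (mul_le hW.a4 hx)) hW.a6
    · refine le_max_of_le_left ?_
      rw [map_mul]
      exact mul_le_of_le_one_left' (v.map_add_le (mul_le hW.a1 hx) hW.a3)
  rw [max_eq_left hy.le, map_pow, sq] at h1
  have h2 : v (py P) * 1 < v (py P) * v (py P) :=
    mul_lt_mul_of_pos_left hy (zero_lt_one.trans hy)
  rw [mul_one] at h2
  exact absurd h1 (not_le.2 h2)

omit [DecidableEq F] in
theorem pe_le (hW : IntW v W) {P : W.toAffine.Point} (h : ¬ Kr v P) : v (pe P) ≤ 1 := by
  obtain ⟨-, hx⟩ := not_kr h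
  unfold pe
  exact v.map_add_le (v.map_add_le (mul_le v_two_le (py_le hW h)) (mul_le hW.a1 hx)) hW.a3

/-- the parameter -/
def pt {F : Type*} [Field F] {W : WeierstrassCurve F} (P : W.toAffine.Point) : F := px P / py P

omit [DecidableEq F] in
/-- the values of the coordinates of a point in the kernel -/
theorem kr_val (hW : IntW v W) {P : W.toAffine.Point} (h : Kr v P) (h0 : P ≠ 0) :
    py P ≠ 0 ∧ v (pt P) ≠ 0 ∧ v (pt P) < 1 ∧ v (px P) = (v (pt P) ^ 2)⁻¹ ∧
      v (py P) = (v (pt P) ^ 3)⁻¹ := by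
  have hx : 1 < v (px P) := h.resolve_left h0
  have e := p_eq h0
  have hx0 : v (px P) ≠ 0 := (zero_lt_one.trans hx).ne'
  obtain ⟨X, hX⟩ : ∃ X, X = v (px P) := ⟨_, rfl⟩
  obtain ⟨Y, hY⟩ : ∃ Y, Y = v (py P) := ⟨_, rfl⟩
  rw [← hX] at hx hx0
  have hXp : 0 < X := zero_lt_iff.2 hx0
  have hX1 : 1 ≤ X := hx.le
  -- the two sides
  have hR : v (px P ^ 3 + W.a₂ * px P ^ 2 + W.a₄ * px P + W.a₆) = X ^ 3 := by
    have h1 : v (W.a₂ * px P ^ 2 + W.a₄ * px P + W.a₆) < X ^ 3 := by
      have h2 : X ^ 2 < X ^ 3 := pow_lt_pow_right₀ hx (by norm_num)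
      refine lt_of_le_of_lt (v.map_add_le (v.map_add_le ?_ ?_) ?_) h2
      · rw [map_mul, map_pow, ← hX]
        exact mul_le_of_le_one_left' hW.a2
      · rw [map_mul, ← hX]
        refine (mul_le_of_le_one_left' hW.a4).trans ?_
        exact le_self_pow₀ hX1 (by norm_num)
      · exact hW.a6.trans (one_le_pow₀ hX1)
    have h3 : px P ^ 3 + W.a₂ * px P ^ 2 + W.a₄ * px P + W.a₆ =
        px P ^ 3 + (W.a₂ * px P ^ 2 + W.a₄ * px P + W.a₆) := by ring
    rw [h3, Valuation.map_add_eq_of_lt_left v (by rw [map_pow, ← hX]; exact h1), map_pow, ← hX]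
  have hL : v (py P ^ 2 + (W.a₁ * px P * py P + W.a₃ * py P)) = X ^ 3 := by
    rw [← hR, ← e]
    congr 1
    ring
  have hLb : v (W.a₁ * px P * py P + W.a₃ * py P) ≤ X * Y := by
    refine v.map_add_le ?_ ?_
    · rw [map_mul, map_mul, ← hX, ← hY]
      exact mul_le_mul' (mul_le_of_le_one_left' hW.a1) le_rfl
    · rw [map_mul, ← hY]
      exact mul_le_mul' (hW.a3.trans hX1) le_rfl
  have hXY : Y ^ 2 = X ^ 3 := by
    rcases lt_trichotomy (Y ^ 2) (X ^ 3) with h1 | h1 | h1
    · exfalso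
      have h2 : X * Y < X ^ 3 := by
        have h3 : Y < X ^ 2 := by
          by_contra h4
          rw [not_lt] at h4
          have h5 : (X ^ 2) ^ 2 ≤ Y ^ 2 := pow_le_pow_left' h4 2
          have h6 : X ^ 3 ≤ (X ^ 2) ^ 2 := by
            rw [← pow_mul]
            exact pow_le_pow_right₀ hX1 (by norm_num)
          exact absurd h1 (not_lt.2 (h6.trans h5))
        calc X * Y < X * X ^ 2 := mul_lt_mul_of_pos_left h3 hXp
          _ = X ^ 3 := by rw [← pow_succ']
      have h4 : v (py P ^ 2 + (W.a₁ * px P * py P + W.a₃ * py P)) < X ^ 3 := by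
        refine v.map_add_lt ?_ (lt_of_le_of_lt hLb h2)
        rw [map_pow, ← hY]
        exact h1
      rw [hL] at h4
      exact lt_irrefl _ h4
    · exact h1
    · exfalso
      have h2 : X < Y := by
        by_contra h3
        rw [not_lt] at h3
        have h5 : Y ^ 2 ≤ X ^ 2 := pow_le_pow_left' h3 2
        have h6 : X ^ 2 ≤ X ^ 3 := pow_le_pow_right₀ hX1 (by norm_num)
        exact absurd h1 (not_lt.2 (h5.trans h6))
      have hYp : 0 < Y := hXp.trans h2
      have h3 : v (W.a₁ * px P * py P + W.a₃ * py P) < v (py P ^ 2) := by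
        refine lt_of_le_of_lt hLb ?_
        rw [map_pow, ← hY, sq]
        exact mul_lt_mul_of_pos_right h2 hYp
      rw [Valuation.map_add_eq_of_lt_left v h3, map_pow, ← hY] at hL
      exact absurd hL h1.ne'
  have hYp : 0 < Y := by
    rw [zero_lt_iff]
    rintro h1
    rw [h1, zero_pow (by norm_num)] at hXY
    exact pow_ne_zero 3 hx0 hXY.symm
  have hY0 : Y ≠ 0 := hYp.ne'
  have hy0 : py P ≠ 0 := by
    intro h1
    rw [h1, map_zero] at hY
    exact hY0 hY
  have hT : v (pt P) = X / Y := by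
    unfold pt
    rw [map_div₀, ← hX, ← hY]
  have hT2 : v (pt P) ^ 2 = X⁻¹ := by
    rw [hT, div_pow, hXY, pow_succ X 2, div_mul_eq_div_div, div_self (pow_ne_zero 2 hx0), one_div]
  have hT3 : v (pt P) ^ 3 = Y⁻¹ := by
    have h1 : v (pt P) ^ 3 = v (pt P) ^ 2 * (X / Y) := by rw [← hT, ← pow_succ]
    rw [h1, hT2, div_eq_mul_inv, ← mul_assoc, inv_mul_cancel₀ hx0, one_mul]
  refine ⟨hy0, ?_, ?_, ?_, ?_⟩
  · rw [hT]
    exact div_ne_zero hx0 hY0
  · by_contra h1
    rw [not_lt] at h1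
    have h2 : 1 ≤ v (pt P) ^ 2 := one_le_pow₀ h1
    rw [hT2] at h2
    have h3 : X⁻¹ < 1 := inv_lt_one_of_one_lt₀ hx
    exact absurd h2 (not_le.2 h3)
  · rw [hT2, inv_inv, ← hX]
  · rw [hT3, inv_inv, ← hY]

/-- addition of a point of the kernel -/
theorem kr_add (hW : IntW v W) {S B : W.toAffine.Point} (hS : ¬ Kr v S) (hB : Kr v B)
    (hB0 : B ≠ 0) : S + B ≠ 0 ∧ v (px (S + B) - px S + pe S * pt B) ≤ v (pt B) ^ 2 ∧
      v (py (S + B) - py S) ≤ v (pt B) := by
  obtain ⟨hS0, hx⟩ := not_kr hS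
  have hy := py_le hW hS
  have he := pe_le hW hS
  obtain ⟨hY0, ht0, ht1, hX, hY⟩ := kr_val hW hB hB0
  obtain ⟨τ, hτ⟩ : ∃ τ, τ = v (pt B) := ⟨_, rfl⟩
  rw [← hτ] at ht0 ht1 hX hY
  have hτp : 0 < τ := zero_lt_iff.2 ht0
  have hX1 : 1 < v (px B) := hB.resolve_left hB0
  have hne : px S ≠ px B := by
    intro h
    rw [h] at hx
    exact absurd hx (not_le.2 hX1)
  have hXn : px B ≠ 0 := by
    intro h
    rw [h, map_zero] at hX1
    exact absurd hX1 (not_lt.2 zero_le')
  have hd : px S - px B ≠ 0 := sub_ne_zero.2 hne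
  have hvd : v (px S - px B) = (τ ^ 2)⁻¹ := by
    rw [Valuation.map_sub_eq_of_lt_right v (lt_of_le_of_lt hx hX1), hX]
  obtain ⟨h0, -, h3⟩ := p_add hS0 hB0 hne
  have h1 := px_add_sub hS0 hB0 hne
  have eB := p_eq hB0
  obtain ⟨c1, hc1⟩ : ∃ c, c = 3 * px S ^ 2 + 2 * W.a₂ * px S + W.a₄ - W.a₁ * py S := ⟨_, rfl⟩
  obtain ⟨c0, hc0⟩ : ∃ c, c = -px S ^ 3 + W.a₄ * px S + 2 * W.a₆ - W.a₃ * py S := ⟨_, rfl⟩
  rw [← hc1, ← hc0] at h1
  have hc1v : v c1 ≤ 1 := by
    rw [hc1]
    exact v.map_sub_le (v.map_add_le (v.map_add_le (mul_le v_three_le (pow_le hx 2))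
      (mul_le (mul_le v_two_le hW.a2) hx)) hW.a4) (mul_le hW.a1 hy)
  have hc0v : v c0 ≤ 1 := by
    rw [hc0]
    refine v.map_sub_le (v.map_add_le (v.map_add_le ?_ (mul_le hW.a4 hx))
      (mul_le v_two_le hW.a6)) (mul_le hW.a3 hy)
    rw [Valuation.map_neg]
    exact pow_le hx 3
  have hτ1 : τ ≤ 1 := ht1.le
  have key : v (px (S + B) - px S + pe S * pt B) ≤ τ ^ 2 := by
    have e1 : (px (S + B) - px S + pe S * pt B) * ((px S - px B) ^ 2 * py B) =
        pe S * (px B ^ 3 - py B ^ 2 + (px S ^ 2 - 2 * px S * px B) * px B) +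
          (px B * c1 + c0) * py B := by
      unfold pt
      have e2 : (px (S + B) - px S + pe S * (px B / py B)) * ((px S - px B) ^ 2 * py B) =
          (px (S + B) - px S) * (px S - px B) ^ 2 * py B +
            pe S * (px B * (px S - px B) ^ 2) := by
        field_simp
      rw [e2, h1]
      ring
    have e3 : px B ^ 3 - py B ^ 2 = W.a₁ * (px B * py B) + W.a₃ * py B - W.a₂ * px B ^ 2 -
        W.a₄ * px B - W.a₆ := by linear_combination -eB
    have p5 : (τ ^ 5)⁻¹ = v (px B) * v (py B) := by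
      rw [hX, hY, ← mul_inv, ← pow_add]
    have hYX : v (px B) ≤ v (py B) := by
      rw [hX, hY]
      exact inv_anti₀ (pow_pos hτp 3) (pow_le_pow_right_of_le_one' hτ1 (by norm_num))
    have hY1 : 1 ≤ v (py B) := hX1.le.trans hYX
    have b1 : ∀ c : F, v c ≤ 1 → v c ≤ (τ ^ 5)⁻¹ := by
      intro c hc
      rw [p5]
      exact hc.trans (one_le_mul_of_one_le_of_one_le hX1.le hY1)
    have b2 : ∀ c : F, v c ≤ 1 → v (c * (px B * py B)) ≤ (τ ^ 5)⁻¹ := by
      intro c hc
      rw [p5, map_mul, map_mul]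
      exact mul_le_of_le_one_left' hc
    have b3 : ∀ c : F, v c ≤ 1 → v (c * py B) ≤ (τ ^ 5)⁻¹ := by
      intro c hc
      rw [p5, map_mul]
      exact mul_le_mul' (hc.trans hX1.le) le_rfl
    have b4 : ∀ c : F, v c ≤ 1 → v (c * px B ^ 2) ≤ (τ ^ 5)⁻¹ := by
      intro c hc
      rw [p5, map_mul, map_pow, sq]
      refine (mul_le_of_le_one_left' hc).trans ?_
      exact mul_le_mul' le_rfl hYX
    have b5 : ∀ c : F, v c ≤ 1 → v (c * px B) ≤ (τ ^ 5)⁻¹ := by
      intro c hc
      rw [p5, map_mul, mul_comm (v (px B))]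
      exact mul_le_mul' (hc.trans hY1) le_rfl
    have e4 : v ((px (S + B) - px S + pe S * pt B) * ((px S - px B) ^ 2 * py B)) ≤
        (τ ^ 5)⁻¹ := by
      rw [e1, e3]
      have e5 : pe S * (W.a₁ * (px B * py B) + W.a₃ * py B - W.a₂ * px B ^ 2 -
          W.a₄ * px B - W.a₆ + (px S ^ 2 - 2 * px S * px B) * px B) +
          (px B * c1 + c0) * py B = (pe S * W.a₁ + c1) * (px B * py B) +
            (pe S * W.a₃ + c0) * py B + (-(pe S * (W.a₂ + 2 * px S))) * px B ^ 2 +
            (pe S * (px S ^ 2 - W.a₄)) * px B - pe S * W.a₆ := by ring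
      rw [e5]
      refine v.map_sub_le (v.map_add_le (v.map_add_le (v.map_add_le (b2 _ ?_) (b3 _ ?_))
        (b4 _ ?_)) (b5 _ ?_)) (b1 _ ?_)
      · exact v.map_add_le (mul_le he hW.a1) hc1v
      · exact v.map_add_le (mul_le he hW.a3) hc0v
      · rw [Valuation.map_neg]
        exact mul_le he (v.map_add_le hW.a2 (mul_le v_two_le hx))
      · exact mul_le he (v.map_sub_le (pow_le hx 2) hW.a4)
      · exact mul_le he hW.a6
    have e6 : v ((px S - px B) ^ 2 * py B) = (τ ^ 7)⁻¹ := by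
      rw [map_mul, map_pow, hvd, hY, inv_pow, ← mul_inv, ← pow_mul, ← pow_add]
    rw [map_mul, e6] at e4
    have h7 : (τ ^ 7)⁻¹ ≠ 0 := inv_ne_zero (pow_ne_zero 7 ht0)
    calc v (px (S + B) - px S + pe S * pt B)
        = v (px (S + B) - px S + pe S * pt B) * (τ ^ 7)⁻¹ * τ ^ 7 := by
          rw [mul_assoc, inv_mul_cancel₀ (pow_ne_zero 7 ht0), mul_one]
      _ ≤ (τ ^ 5)⁻¹ * τ ^ 7 := mul_le_mul' e4 le_rfl
      _ = τ ^ 2 := by
          have : τ ^ 7 = τ ^ 5 * τ ^ 2 := by rw [← pow_add]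
          rw [this, ← mul_assoc, inv_mul_cancel₀ (pow_ne_zero 5 ht0), one_mul]
  refine ⟨h0, by rw [← hτ]; exact key, ?_⟩
  rw [← hτ]
  -- the ordinate
  obtain ⟨s, hs⟩ : ∃ s, s = (py S - py B) / (px S - px B) := ⟨_, rfl⟩
  rw [← hs] at h3
  have hsd : s * (px S - px B) = py S - py B := by
    rw [hs]
    exact div_mul_cancel₀ _ hd
  have hd1 : v (px (S + B) - px S) ≤ τ := by
    have e1 : px (S + B) - px S = (px (S + B) - px S + pe S * pt B) - pe S * pt B := by ring
    rw [e1]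
    refine v.map_sub_le (key.trans ?_) ?_
    · rw [sq]
      exact mul_le_of_le_one_left' hτ1
    · rw [map_mul, ← hτ]
      exact mul_le_of_le_one_left' he
  have hsv : v s ≤ τ⁻¹ := by
    have hYX : v (px B) ≤ v (py B) := by
      rw [hX, hY]
      exact inv_anti₀ (pow_pos hτp 3) (pow_le_pow_right_of_le_one' hτ1 (by norm_num))
    have e1 : v s * (τ ^ 2)⁻¹ ≤ (τ ^ 3)⁻¹ := by
      rw [← hvd, ← map_mul, hsd, ← hY]
      exact v.map_sub_le (hy.trans (hX1.le.trans hYX)) le_rfl
    calc v s = v s * (τ ^ 2)⁻¹ * τ ^ 2 := by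
          rw [mul_assoc, inv_mul_cancel₀ (pow_ne_zero 2 ht0), mul_one]
      _ ≤ (τ ^ 3)⁻¹ * τ ^ 2 := mul_le_mul' e1 le_rfl
      _ = τ⁻¹ := by
          have h5 : τ ^ 3 = τ * τ ^ 2 := by rw [← pow_succ']
          rw [h5, mul_inv, mul_assoc, inv_mul_cancel₀ (pow_ne_zero 2 ht0), mul_one]
  have hst : v (s * pt B - 1) ≤ τ := by
    have e1 : (s * pt B - 1) * ((px S - px B) * py B) = py S * px B - px S * py B := by
      have e2 : (s * pt B - 1) * ((px S - px B) * py B) =
          (s * (px S - px B)) * (pt B * py B) - (px S - px B) * py B := by ring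
      have e3 : pt B * py B = px B := div_mul_cancel₀ _ hY0
      rw [e2, hsd, e3]
      ring
    have hYX : v (px B) ≤ v (py B) := by
      rw [hX, hY]
      exact inv_anti₀ (pow_pos hτp 3) (pow_le_pow_right_of_le_one' hτ1 (by norm_num))
    have e4 : v ((s * pt B - 1) * ((px S - px B) * py B)) ≤ (τ ^ 3)⁻¹ := by
      rw [e1, ← hY]
      refine v.map_sub_le ?_ ?_
      · rw [map_mul]
        exact (mul_le_of_le_one_left' hy).trans hYX
      · rw [map_mul]
        exact mul_le_of_le_one_left' hx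
    rw [map_mul, map_mul, hvd, hY] at e4
    have h4 : v (s * pt B - 1) ≤ τ ^ 2 := by
      calc v (s * pt B - 1) = v (s * pt B - 1) * ((τ ^ 2)⁻¹ * (τ ^ 3)⁻¹) * τ ^ 5 := by
            rw [← mul_inv, ← pow_add, mul_assoc, inv_mul_cancel₀ (pow_ne_zero 5 ht0), mul_one]
        _ ≤ (τ ^ 3)⁻¹ * τ ^ 5 := mul_le_mul' e4 le_rfl
        _ = τ ^ 2 := by
            have h5 : τ ^ 5 = τ ^ 3 * τ ^ 2 := by rw [← pow_add]
            rw [h5, ← mul_assoc, inv_mul_cancel₀ (pow_ne_zero 3 ht0), one_mul]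
    refine h4.trans ?_
    rw [sq]
    exact mul_le_of_le_one_left' hτ1
  have e9 : py (S + B) - py S = -(s * (px (S + B) - px S + pe S * pt B)) +
      pe S * (s * pt B - 1) - W.a₁ * (px (S + B) - px S) := by
    rw [h3]
    unfold pe
    ring
  rw [e9]
  refine v.map_sub_le (v.map_add_le ?_ ?_) ?_
  · rw [Valuation.map_neg, map_mul]
    refine (mul_le_mul' hsv key).trans ?_
    rw [sq, ← mul_assoc, inv_mul_cancel₀ ht0, one_mul]
  · rw [map_mul]
    exact (mul_le_of_le_one_left' he).trans hst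
  · rw [map_mul]
    exact (mul_le_of_le_one_left' hW.a1).trans hd1

theorem not_kr_add (hW : IntW v W) {S B : W.toAffine.Point} (hS : ¬ Kr v S) (hB : Kr v B) :
    ¬ Kr v (S + B) := by
  rcases eq_or_ne B 0 with rfl | hB0
  · rwa [add_zero]
  obtain ⟨h0, h1, -⟩ := kr_add hW hS hB hB0
  obtain ⟨-, ht0, ht1, -, -⟩ := kr_val hW hB hB0
  obtain ⟨hS0, hx⟩ := not_kr hS
  rintro (h | h)
  · exact h0 h
  · have e1 : px (S + B) = (px (S + B) - px S + pe S * pt B) + (px S - pe S * pt B) := by ring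
    rw [e1] at h
    refine absurd h (not_lt.2 (v.map_add_le (h1.trans (pow_le_one' ht1.le 2)) ?_))
    exact v.map_sub_le hx (mul_le (pe_le hW hS) ht1.le)

/-- the kernel of reduction is a subgroup -/
theorem kr_add_kr (hW : IntW v W) {A B : W.toAffine.Point} (hA : Kr v A) (hB : Kr v B) :
    Kr v (A + B) := by
  by_contra h
  have h1 := not_kr_add hW h (kr_neg.2 hB)
  rw [add_neg_cancel_right] at h1
  exact h1 hA

theorem kr_nsmul (hW : IntW v W) {A : W.toAffine.Point} (hA : Kr v A) (n : ℕ) :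
    Kr v (n • A) := by
  induction n with
  | zero =>
    rw [zero_nsmul]
    exact kr_zero
  | succ n ih =>
    rw [succ_nsmul]
    exact kr_add_kr hW ih hA

/-- no torsion prime to the residue characteristic -/
theorem kr_tors (hW : IntW v W) {S : W.toAffine.Point} (hS : ¬ Kr v S) (hSe : v (pe S) = 1)
    {B : W.toAffine.Point} (hB : Kr v B) {m : ℕ} (hm : v (m : F) = 1) (h : m • B = 0) :
    B = 0 := by
  by_contra hB0
  obtain ⟨-, ht0, ht1, -, -⟩ := kr_val hW hB hB0
  obtain ⟨τ, hτ⟩ : ∃ τ, τ = v (pt B) := ⟨_, rfl⟩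
  rw [← hτ] at ht0 ht1
  have hτ1 : τ ≤ 1 := ht1.le
  have hτ2 : τ ^ 2 ≤ τ := by
    rw [sq]
    exact mul_le_of_le_one_left' hτ1
  have key : ∀ n : ℕ, ¬ Kr v (S + n • B) ∧
      v (px (S + n • B) - px S + n * (pe S * pt B)) ≤ τ ^ 2 ∧ v (py (S + n • B) - py S) ≤ τ := by
    intro n
    induction n with
    | zero =>
      rw [zero_nsmul, add_zero, Nat.cast_zero, zero_mul, add_zero, sub_self, sub_self, map_zero]
      exact ⟨hS, zero_le', zero_le'⟩
    | succ n ih =>
      obtain ⟨i1, i2, i3⟩ := ih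
      have e1 : S + (n + 1) • B = (S + n • B) + B := by rw [succ_nsmul, add_assoc]
      obtain ⟨j0, j1, j2⟩ := kr_add hW i1 hB hB0
      rw [← hτ] at j1 j2
      rw [e1]
      have hdx : v (px (S + n • B) - px S) ≤ τ := by
        have e2 : px (S + n • B) - px S =
            (px (S + n • B) - px S + n * (pe S * pt B)) - n * (pe S * pt B) := by ring
        rw [e2]
        refine v.map_sub_le (i2.trans hτ2) ?_
        rw [map_mul, map_mul, hSe, one_mul, ← hτ]
        refine mul_le_of_le_one_left' ?_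
        have h5 : ∀ k : ℕ, v (k : F) ≤ 1 := by
          intro k
          induction k with
          | zero => simp
          | succ k ih => rw [Nat.cast_succ]; exact v.map_add_le ih (by rw [map_one])
        exact h5 n
      refine ⟨not_kr_add hW i1 hB, ?_, ?_⟩
      · have e2 : px (S + n • B + B) - px S + ((n + 1 : ℕ) : F) * (pe S * pt B) =
            (px (S + n • B + B) - px (S + n • B) + pe (S + n • B) * pt B) +
            (px (S + n • B) - px S + n * (pe S * pt B)) -
            (2 * (py (S + n • B) - py S) + W.a₁ * (px (S + n • B) - px S)) * pt B := by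
          unfold pe
          push_cast
          ring
        rw [e2]
        refine v.map_sub_le (v.map_add_le j1 i2) ?_
        rw [map_mul, ← hτ, sq]
        refine mul_le_mul' (v.map_add_le ?_ ?_) le_rfl
        · rw [map_mul]
          exact (mul_le_of_le_one_left' v_two_le).trans i3
        · rw [map_mul]
          exact (mul_le_of_le_one_left' hW.a1).trans hdx
      · have e2 : py (S + n • B + B) - py S = (py (S + n • B + B) - py (S + n • B)) +
            (py (S + n • B) - py S) := by ring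
        rw [e2]
        exact v.map_add_le j2 i3
  obtain ⟨-, h2, -⟩ := key m
  rw [h, add_zero, sub_self, zero_add, map_mul, map_mul, hm, hSe, one_mul, one_mul, ← hτ] at h2
  have h3 : τ ^ 2 < τ := by
    rw [sq]
    exact mul_lt_of_lt_one_left (zero_lt_iff.2 ht0) ht1
  exact absurd h2 (not_le.2 h3)

end

end

end Pool.Agent.Lib.MP_1a91b9_nuX.GM
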